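import Mathlib
set_option autoImplicit false

/-! A Cantor staircase with a small set of non-constancy. -/

namespace Pool.Agent.H97.BP

open MeasureTheory Set Metric Filter Topology
open scoped ENNReal NNReal

/-- approximations of the staircase -/
noncomputable def cn : ℕ → ℝ → ℝ
  | 0 => fun y => max 0 (min 1 y)
  | n + 1 => fun y => (cn n (16 * y) + cn n (16 * y - 15)) / 2

lemma cn_succ (n : ℕ) (y : ℝ) : cn (n + 1) y = (cn n (16 * y) + cn n (16 * y - 15)) / 2 := rfl

lemma cn_cont (n : ℕ) : Continuous (cn n) := by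
  induction n with
  | zero =>
    unfold cn
    fun_prop
  | succ n ih =>
    change Continuous fun y => (cn n (16 * y) + cn n (16 * y - 15)) / 2
    fun_prop

lemma cn_mono (n : ℕ) : Monotone (cn n) := by
  induction n with
  | zero =>
    intro a b hab
    change max 0 (min 1 a) ≤ max 0 (min 1 b)
    exact max_le_max le_rfl (min_le_min le_rfl hab)
  | succ n ih =>
    intro a b hab
    rw [cn_succ, cn_succ]
    have h1 := ih (show 16 * a ≤ 16 * b by linarith)
    have h2 := ih (show 16 * a - 15 ≤ 16 * b - 15 by linarith)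
    linarith

lemma cn_zero (n : ℕ) {y : ℝ} (hy : y ≤ 0) : cn n y = 0 := by
  induction n generalizing y with
  | zero =>
    change max 0 (min 1 y) = 0
    exact max_eq_left ((min_le_right _ _).trans hy)
  | succ n ih =>
    rw [cn_succ, ih (by linarith), ih (by linarith)]
    norm_num

lemma cn_one (n : ℕ) {y : ℝ} (hy : 1 ≤ y) : cn n y = 1 := by
  induction n generalizing y with
  | zero =>
    change max 0 (min 1 y) = 1
    rw [min_eq_left hy]
    exact max_eq_right zero_le_one
  | succ n ih =>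
    rw [cn_succ, ih (by linarith), ih (by linarith)]
    norm_num

lemma cn_mem (n : ℕ) (y : ℝ) : 0 ≤ cn n y ∧ cn n y ≤ 1 := by
  constructor
  · rcases le_total y 0 with h | h
    · rw [cn_zero n h]
    · rw [← cn_zero n (le_refl (0 : ℝ))]
      exact cn_mono n h
  · rcases le_total 1 y with h | h
    · rw [cn_one n h]
    · rw [← cn_one n (le_refl (1 : ℝ))]
      exact cn_mono n h

lemma cn_diff (n : ℕ) (y : ℝ) : |cn (n + 1) y - cn n y| ≤ (1 / 2) ^ n := by
  induction n generalizing y with
  | zero =>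
    rw [pow_zero]
    obtain ⟨h1, h2⟩ := cn_mem 1 y
    obtain ⟨h3, h4⟩ := cn_mem 0 y
    rw [abs_le]
    constructor <;> linarith
  | succ n ih =>
    rw [cn_succ (n + 1) y, cn_succ n y, pow_succ]
    rcases le_total y (1 / 2) with h | h
    · rw [cn_zero (n + 1) (y := 16 * y - 15) (by linarith),
        cn_zero n (y := 16 * y - 15) (by linarith)]
      have h1 := ih (16 * y)
      have e1 : (cn (n + 1) (16 * y) + 0) / 2 - (cn n (16 * y) + 0) / 2 =
        (cn (n + 1) (16 * y) - cn n (16 * y)) * (1 / 2) := by ring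
      rw [e1, abs_mul, abs_of_nonneg (by norm_num : (0 : ℝ) ≤ 1 / 2)]
      linarith
    · rw [cn_one (n + 1) (y := 16 * y) (by linarith), cn_one n (y := 16 * y) (by linarith)]
      have h1 := ih (16 * y - 15)
      have e1 : (1 + cn (n + 1) (16 * y - 15)) / 2 - (1 + cn n (16 * y - 15)) / 2 =
        (cn (n + 1) (16 * y - 15) - cn n (16 * y - 15)) * (1 / 2) := by ring
      rw [e1, abs_mul, abs_of_nonneg (by norm_num : (0 : ℝ) ≤ 1 / 2)]
      linarith

lemma geo : Summable fun n : ℕ => (1 / 2 : ℝ) ^ n :=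
  summable_geometric_of_lt_one (by norm_num) (by norm_num)

lemma cn_sum (y : ℝ) : Summable fun n => cn (n + 1) y - cn n y :=
  Summable.of_norm_bounded geo fun n => by
    rw [Real.norm_eq_abs]
    exact cn_diff n y

/-- the staircase -/
noncomputable def ca (y : ℝ) : ℝ := cn 0 y + ∑' n, (cn (n + 1) y - cn n y)

lemma ca_lim (y : ℝ) : Tendsto (fun n => cn n y) atTop (𝓝 (ca y)) := by
  have h1 := (cn_sum y).hasSum.tendsto_sum_nat
  have h2 : ∀ n, ∑ i ∈ Finset.range n, (cn (i + 1) y - cn i y) = cn n y - cn 0 y := fun n =>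
    Finset.sum_range_sub (fun i => cn i y) n
  simp only [h2] at h1
  have h3 := h1.const_add (cn 0 y)
  simp only [add_sub_cancel] at h3
  exact h3

lemma ca_cont : Continuous ca := by
  unfold ca
  refine (cn_cont 0).add (continuous_tsum (fun n => (cn_cont (n + 1)).sub (cn_cont n)) geo
    fun n y => ?_)
  rw [Real.norm_eq_abs]
  exact cn_diff n y

lemma ca_mono : Monotone ca := fun a b hab =>
  le_of_tendsto_of_tendsto (ca_lim a) (ca_lim b) (Eventually.of_forall fun n => cn_mono n hab)

lemma ca_zero {y : ℝ} (hy : y ≤ 0) : ca y = 0 :=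
  tendsto_nhds_unique (ca_lim y) (by
    simp only [cn_zero _ hy]
    exact tendsto_const_nhds)

lemma ca_one {y : ℝ} (hy : 1 ≤ y) : ca y = 1 :=
  tendsto_nhds_unique (ca_lim y) (by
    simp only [cn_one _ hy]
    exact tendsto_const_nhds)

lemma ca_mem (y : ℝ) : 0 ≤ ca y ∧ ca y ≤ 1 :=
  ⟨ge_of_tendsto (ca_lim y) (Eventually.of_forall fun n => (cn_mem n y).1),
    le_of_tendsto (ca_lim y) (Eventually.of_forall fun n => (cn_mem n y).2)⟩

lemma ca_eq (y : ℝ) : ca y = (ca (16 * y) + ca (16 * y - 15)) / 2 := by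
  have h1 := (ca_lim y).comp (tendsto_add_atTop_nat 1)
  have h2 : Tendsto ((fun n => cn n y) ∘ fun n => n + 1) atTop
      (𝓝 ((ca (16 * y) + ca (16 * y - 15)) / 2)) :=
    ((ca_lim (16 * y)).add (ca_lim (16 * y - 15))).div_const 2
  exact tendsto_nhds_unique h1 h2

/-- the points near which the staircase is not constant, at scale `h` -/
def NC (h : ℝ) : Set ℝ := {y | ca (y - h) ≠ ca (y + h)}

lemma NC_meas (h : ℝ) : MeasurableSet (NC h) := by
  have h1 : IsOpen (NC h) :=
    isOpen_ne_fun (ca_cont.comp (continuous_id.sub continuous_const))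
      (ca_cont.comp (continuous_id.add continuous_const))
  exact h1.measurableSet

lemma NC_mono {h h' : ℝ} (h0 : 0 ≤ h) (hh : h ≤ h') : NC h ⊆ NC h' := by
  intro y hy hcon
  apply hy
  have h1 := ca_mono (show y - h' ≤ y - h by linarith)
  have h2 := ca_mono (show y - h ≤ y + h by linarith)
  have h3 := ca_mono (show y + h ≤ y + h' by linarith)
  linarith

lemma NC_sub {h : ℝ} (h0 : 0 ≤ h) : NC h ⊆ Icc (-h) (1 + h) := by
  intro y hy
  by_contra hcon
  apply hy
  rw [mem_Icc, not_and_or, not_le, not_le] at hcon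
  rcases hcon with h1 | h1
  · rw [ca_zero (by linarith), ca_zero (by linarith)]
  · rw [ca_one (by linarith), ca_one (by linarith)]

lemma NC_scale (h : ℝ) : volume (NC h) ≤ ENNReal.ofReal (1 / 8) * volume (NC (16 * h)) := by
  have h1 : NC h ⊆ (fun y => 16 * y) ⁻¹' NC (16 * h) ∪
      (fun y => 16 * y) ⁻¹' ((fun y => y - 15) ⁻¹' NC (16 * h)) := by
    intro y hy
    by_contra hcon
    rw [mem_union, not_or] at hcon
    obtain ⟨h1, h2⟩ := hcon
    simp only [mem_preimage, NC, mem_ofPred_eq, not_not] at h1 h2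
    apply hy
    rw [ca_eq (y - h), ca_eq (y + h)]
    have e1 : 16 * (y - h) = 16 * y - 16 * h := by ring
    have e2 : 16 * (y + h) = 16 * y + 16 * h := by ring
    have e3 : 16 * (y - h) - 15 = 16 * y - 15 - 16 * h := by ring
    have e4 : 16 * (y + h) - 15 = 16 * y - 15 + 16 * h := by ring
    rw [e3, e4, e1, e2, h1, h2]
  have h2 : ∀ s : Set ℝ, volume ((fun y => (16 : ℝ) * y) ⁻¹' s) =
      ENNReal.ofReal (1 / 16) * volume s := by
    intro s
    rw [Real.volume_preimage_mul_left (by norm_num) s]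
    congr 2
    norm_num
  have h3 : volume ((fun y : ℝ => y - 15) ⁻¹' NC (16 * h)) = volume (NC (16 * h)) :=
    by
      have := measure_preimage_add_right (volume : Measure ℝ) (-15) (NC (16 * h))
      simpa [sub_eq_add_neg] using this
  calc volume (NC h) ≤ volume ((fun y => (16 : ℝ) * y) ⁻¹' NC (16 * h)) +
        volume ((fun y => (16 : ℝ) * y) ⁻¹' ((fun y => y - 15) ⁻¹' NC (16 * h))) :=
        (measure_mono h1).trans (measure_union_le _ _)
    _ = (ENNReal.ofReal (1 / 16) + ENNReal.ofReal (1 / 16)) * volume (NC (16 * h)) := by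
        rw [h2, h2, h3]
        ring
    _ = _ := by
        rw [← ENNReal.ofReal_add (by norm_num) (by norm_num)]
        norm_num

/-- the set of non-constancy is small -/
lemma NC_small (j : ℕ) : volume (NC (1 / 16 ^ j)) ≤ ENNReal.ofReal (3 / 8 ^ j) := by
  induction j with
  | zero =>
    simp only [pow_zero, div_one]
    refine (measure_mono (NC_sub zero_le_one)).trans ?_
    rw [Real.volume_Icc]
    refine ENNReal.ofReal_le_ofReal ?_
    norm_num
  | succ j ih =>
    refine (NC_scale _).trans ?_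
    have e1 : (16 : ℝ) * (1 / 16 ^ (j + 1)) = 1 / 16 ^ j := by
      rw [pow_succ]
      field_simp
    rw [e1]
    refine (mul_le_mul_right ih _).trans (le_of_eq ?_)
    rw [← ENNReal.ofReal_mul (by norm_num)]
    congr 1
    rw [pow_succ]
    field_simp

/-- the periodic staircase with `M` steps on `[-1, 1]` -/
noncomputable def CM (M : ℕ) (t : ℝ) : ℝ := (∑ a ∈ Finset.range M, ca (M * (t + 1) / 2 - a)) / M

lemma CM_cont (M : ℕ) : Continuous (CM M) := by
  unfold CM
  refine Continuous.div_const (continuous_finsetSum _ fun a _ => ca_cont.comp (by fun_prop)) _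

lemma CM_mono (M : ℕ) : Monotone (CM M) := by
  intro s t hst
  unfold CM
  refine div_le_div_of_nonneg_right (Finset.sum_le_sum fun a _ => ca_mono ?_) (Nat.cast_nonneg M)
  have : (M : ℝ) * (s + 1) ≤ M * (t + 1) :=
    mul_le_mul_of_nonneg_left (by linarith) (Nat.cast_nonneg M)
  linarith

lemma CM_mem (M : ℕ) (t : ℝ) : 0 ≤ CM M t ∧ CM M t ≤ 1 := by
  unfold CM
  constructor
  · exact div_nonneg (Finset.sum_nonneg fun a _ => (ca_mem _).1) (Nat.cast_nonneg M)
  · refine div_le_one_of_le₀ ?_ (Nat.cast_nonneg M)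
    calc ∑ a ∈ Finset.range M, ca (M * (t + 1) / 2 - a) ≤ ∑ a ∈ Finset.range M, (1 : ℝ) :=
          Finset.sum_le_sum fun a _ => (ca_mem _).2
      _ = M := by simp

lemma CM_zero {M : ℕ} {t : ℝ} (ht : t ≤ -1) : CM M t = 0 := by
  unfold CM
  rw [Finset.sum_eq_zero, zero_div]
  intro a _
  refine ca_zero ?_
  have h1 : (M : ℝ) * (t + 1) ≤ 0 := mul_nonpos_of_nonneg_of_nonpos (Nat.cast_nonneg M)
    (by linarith)
  have h2 : (0 : ℝ) ≤ a := Nat.cast_nonneg a
  linarith

lemma CM_one {M : ℕ} (hM : 0 < M) {t : ℝ} (ht : 1 ≤ t) : CM M t = 1 := by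
  unfold CM
  have hM' : (0 : ℝ) < M := by exact_mod_cast hM
  rw [Finset.sum_congr rfl (g := fun _ => (1 : ℝ))]
  · simp [hM'.ne']
  · intro a ha
    refine ca_one ?_
    have h1 : (M : ℝ) * 2 ≤ M * (t + 1) := mul_le_mul_of_nonneg_left (by linarith) hM'.le
    have h2 : (a : ℝ) + 1 ≤ M := by exact_mod_cast Finset.mem_range.1 ha
    linarith

/-- the staircase is close to the identity -/
lemma CM_close {M : ℕ} (hM : 0 < M) {t : ℝ} (h1 : -1 ≤ t) (h2 : t ≤ 1) :
    |CM M t - (t + 1) / 2| ≤ 1 / M := by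
  have hM' : (0 : ℝ) < M := by exact_mod_cast hM
  set y : ℝ := M * (t + 1) / 2 with hy
  have hy0 : 0 ≤ y := by
    rw [hy]
    have : 0 ≤ t + 1 := by linarith
    positivity
  have hyM : y ≤ M := by
    rw [hy]
    nlinarith
  have key : |(∑ a ∈ Finset.range M, ca (y - a)) - y| ≤ 1 := by
    set k : ℕ := ⌊y⌋₊ with hk
    have hk1 : (k : ℝ) ≤ y := Nat.floor_le hy0
    have hk2 : y < k + 1 := Nat.lt_floor_add_one y
    have hkM : k ≤ M := by
      have : (k : ℝ) ≤ M := hk1.trans hyM
      exact_mod_cast this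
    have e1 : ∀ K, K ≤ k → ∑ a ∈ Finset.range K, ca (y - a) = K := by
      intro K hK
      rw [Finset.sum_congr rfl (g := fun _ => (1 : ℝ))]
      · simp
      · intro a ha
        refine ca_one ?_
        have h3 : (a : ℝ) + 1 ≤ K := by exact_mod_cast Finset.mem_range.1 ha
        have h4 : (K : ℝ) ≤ k := by exact_mod_cast hK
        linarith
    rcases hkM.eq_or_lt with h3 | h3
    · rw [← h3, e1 k le_rfl, abs_le]
      constructor <;> linarith
    · have e2 : ∑ a ∈ Finset.range M, ca (y - a) = k + ca (y - k) := by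
        have h4 : ∑ a ∈ Finset.range (k + 1), ca (y - a) = ∑ a ∈ Finset.range M, ca (y - a) := by
          refine Finset.sum_subset (Finset.range_subset_range.2 (by omega)) fun a _ ha => ?_
          refine ca_zero ?_
          rw [Finset.mem_range, not_lt] at ha
          have h5 : (k : ℝ) + 1 ≤ a := by exact_mod_cast ha
          linarith
        rw [← h4, Finset.sum_range_succ, e1 k le_rfl]
      rw [e2, abs_le]
      obtain ⟨h5, h6⟩ := ca_mem (y - k)
      constructor <;> linarith
  unfold CM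
  have e3 : (∑ a ∈ Finset.range M, ca (y - a)) / M - (t + 1) / 2 =
      ((∑ a ∈ Finset.range M, ca (y - a)) - y) / M := by
    rw [hy]
    field_simp
  rw [e3, abs_div, abs_of_pos hM']
  exact div_le_div_of_nonneg_right key hM'.le

/-- strict increase over two steps -/
lemma CM_strict {M : ℕ} (hM : 0 < M) {s t : ℝ} (h1 : -1 ≤ s) (h2 : t ≤ 1)
    (h : 4 ≤ M * (t - s)) : CM M s < CM M t := by
  have hM' : (0 : ℝ) < M := by exact_mod_cast hM
  have hst : s ≤ t := by
    by_contra hcon
    have : (M : ℝ) * (t - s) ≤ 0 := mul_nonpos_of_nonneg_of_nonpos hM'.le (by linarith)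
    linarith
  unfold CM
  refine div_lt_div_of_pos_right ?_ hM'
  set y : ℝ := M * (s + 1) / 2 with hy
  have hy0 : 0 ≤ y := by
    rw [hy]
    have : 0 ≤ s + 1 := by linarith
    positivity
  set y' : ℝ := M * (t + 1) / 2 with hy'
  have hyy : y + 2 ≤ y' := by
    rw [hy, hy']
    linarith
  have hyM : y' ≤ M := by
    rw [hy']
    nlinarith
  set k : ℕ := ⌊y⌋₊ + 1 with hk
  have hk1 : (k : ℝ) ≤ y + 1 := by
    rw [hk]
    push_cast
    have := Nat.floor_le hy0
    linarith
  have hk2 : y < k := by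
    rw [hk]
    push_cast
    exact Nat.lt_floor_add_one y
  refine Finset.sum_lt_sum (fun a _ => ca_mono (by linarith)) ⟨k, ?_, ?_⟩
  · rw [Finset.mem_range]
    have : (k : ℝ) < M := by linarith
    exact_mod_cast this
  · rw [ca_zero (by linarith), ca_one (by linarith)]
    exact zero_lt_one

/-- the points near which the periodic staircase is not constant -/
def NM (M : ℕ) (h : ℝ) : Set ℝ := {t | CM M (t - h) ≠ CM M (t + h)}

lemma NM_meas (M : ℕ) (h : ℝ) : MeasurableSet (NM M h) := by
  have h1 : IsOpen (NM M h) :=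
    isOpen_ne_fun ((CM_cont M).comp (continuous_id.sub continuous_const))
      ((CM_cont M).comp (continuous_id.add continuous_const))
  exact h1.measurableSet

lemma NM_vol {M : ℕ} (hM : 0 < M) (h : ℝ) :
    volume (NM M h) ≤ ENNReal.ofReal 2 * volume (NC (M * h / 2)) := by
  have hM' : (0 : ℝ) < M := by exact_mod_cast hM
  have h1 : NM M h ⊆ ⋃ a ∈ Finset.range M,
      (fun t : ℝ => (M / 2 : ℝ) * t) ⁻¹' ((fun y : ℝ => y + (M / 2 - a)) ⁻¹' NC (M * h / 2)) := by
    intro t ht
    by_contra hcon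
    simp only [mem_iUnion, not_exists, mem_preimage, NC, mem_ofPred_eq, not_not] at hcon
    apply ht
    unfold CM
    congr 1
    refine Finset.sum_congr rfl fun a ha => ?_
    have h2 := hcon a ha
    have e1 : (M : ℝ) * (t - h + 1) / 2 - a = M / 2 * t + (M / 2 - a) - M * h / 2 := by ring
    have e2 : (M : ℝ) * (t + h + 1) / 2 - a = M / 2 * t + (M / 2 - a) + M * h / 2 := by ring
    rw [e1, e2]
    exact h2
  calc volume (NM M h) ≤ ∑ a ∈ Finset.range M, volume ((fun t : ℝ => (M / 2 : ℝ) * t) ⁻¹'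
        ((fun y : ℝ => y + (M / 2 - a)) ⁻¹' NC (M * h / 2))) :=
        (measure_mono h1).trans (measure_biUnion_finset_le _ _)
    _ = ∑ a ∈ Finset.range M, ENNReal.ofReal (2 / M) * volume (NC (M * h / 2)) := by
        refine Finset.sum_congr rfl fun a _ => ?_
        rw [Real.volume_preimage_mul_left (by positivity), measure_preimage_add_right,
          abs_of_pos (by positivity)]
        congr 2
        rw [inv_div]
    _ = _ := by
        rw [Finset.sum_const, Finset.card_range, nsmul_eq_mul, ← mul_assoc]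
        congr 1
        rw [← ENNReal.ofReal_natCast, ← ENNReal.ofReal_mul hM'.le]
        congr 1
        field_simp

/-- the set of non-constancy of the periodic staircase is small -/
lemma NM_small {M : ℕ} (hM : 0 < M) {h : ℝ} (h0 : 0 ≤ h) (i j : ℕ)
    (hh : M * h / 2 ≤ 16 ^ i / 16 ^ j) :
    volume (NM M h ∩ Ioo (-1) 1) ≤ ENNReal.ofReal (6 * 8 ^ i / 8 ^ j) := by
  rcases le_total i j with hij | hij
  · obtain ⟨d, rfl⟩ : ∃ d, j = i + d := ⟨j - i, by omega⟩
    refine (measure_mono inter_subset_left).trans ((NM_vol hM h).trans ?_)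
    have e1 : (16 : ℝ) ^ i / 16 ^ (i + d) = 1 / 16 ^ d := by
      rw [pow_add]
      field_simp
    have e2 : (6 : ℝ) * 8 ^ i / 8 ^ (i + d) = 2 * (3 / 8 ^ d) := by
      rw [pow_add]
      field_simp
      ring
    rw [e1] at hh
    rw [e2, ENNReal.ofReal_mul (by norm_num)]
    refine mul_le_mul_right ((measure_mono (NC_mono (by positivity) hh)).trans (NC_small d)) _
  · refine (measure_mono inter_subset_right).trans ?_
    rw [Real.volume_Ioo]
    refine ENNReal.ofReal_le_ofReal ?_
    rw [le_div_iff₀ (by positivity)]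
    have h1 : (8 : ℝ) ^ j ≤ 8 ^ i := pow_le_pow_right₀ (by norm_num) hij
    have h2 : (0 : ℝ) < 8 ^ i := by positivity
    nlinarith

end Pool.Agent.H97.BP
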