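import Pool.Agent.H97.BP.Cube
import Pool.Agent.H97.L.S8.H789R2.FR.Sph
set_option autoImplicit false

/-! Integration of functions of one cube coordinate over the sphere. -/

namespace Pool.Agent.H97.BP

open MeasureTheory Set Metric Filter Topology
open scoped ENNReal NNReal
open Pool.Agent.H789R2.FR (sg sg_ae sg_finite polar)

lemma cc_cont_on {n : ℕ} (i : Fin n) : Measurable fun x : E n => cc x i := by
  unfold cc
  exact (PiLp.continuous_apply 2 _ i).measurable.div nu_cont.measurable

lemma pow_int (k : ℕ) : ∫⁻ r in Ioo (0 : ℝ) 1, ENNReal.ofReal (r ^ k) =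
    ENNReal.ofReal (1 / ((k : ℝ) + 1)) := by
  rw [← ofReal_integral_eq_lintegral_ofReal]
  · congr 1
    rw [← integral_Ioc_eq_integral_Ioo, ← intervalIntegral.integral_of_le zero_le_one,
      integral_pow]
    simp
  · have h1 : IntegrableOn (fun r : ℝ => r ^ k) (Icc 0 1) :=
      (continuous_pow k).continuousOn.integrableOn_Icc
    exact h1.mono_set Ioo_subset_Icc_self
  · filter_upwards [ae_restrict_mem measurableSet_Ioo] with r hr
    exact pow_nonneg hr.1.le k

/-- the integral of a homogeneous function over the sphere -/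
lemma hom_int {n : ℕ} (hn : 0 < n) {H : E n → ℝ≥0∞} (hH : Measurable H)
    (hom : ∀ (r : ℝ) (x : E n), 0 < r → H (r • x) = H x) :
    ∫⁻ x, H x ∂(sg n) = n * ∫⁻ z in ball (0 : E n) 1, H z := by
  have hn' : (0 : ℝ) < n := by exact_mod_cast hn
  have h1 := polar hn ((ball (0 : E n) 1).indicator H) (hH.indicator measurableSet_ball)
  rw [lintegral_indicator measurableSet_ball] at h1
  have h2 : ∫⁻ w, (∫⁻ r in Ioi (0 : ℝ), ENNReal.ofReal (r ^ (n - 1)) *
      (ball (0 : E n) 1).indicator H (r • w)) ∂(sg n) =
      ∫⁻ w, ENNReal.ofReal (1 / n) * H w ∂(sg n) := by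
    refine lintegral_congr_ae ?_
    filter_upwards [sg_ae n] with w hw
    have h3 : ∀ r ∈ Ioi (0 : ℝ), ENNReal.ofReal (r ^ (n - 1)) *
        (ball (0 : E n) 1).indicator H (r • w) =
        (Ioo (0 : ℝ) 1).indicator (fun r => ENNReal.ofReal (r ^ (n - 1)) * H w) r := by
      intro r hr
      have hr0 : (0 : ℝ) < r := hr
      by_cases hr1 : r < 1
      · have h4 : r • w ∈ ball (0 : E n) 1 := by
          rw [mem_ball, dist_zero_right, norm_smul, hw, mul_one, Real.norm_of_nonneg hr0.le]
          exact hr1
        rw [indicator_of_mem h4, indicator_of_mem (show r ∈ Ioo (0 : ℝ) 1 from ⟨hr0, hr1⟩),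
          hom r w hr0]
      · have h4 : r • w ∉ ball (0 : E n) 1 := by
          rw [mem_ball, dist_zero_right, norm_smul, hw, mul_one, Real.norm_of_nonneg hr0.le]
          exact hr1
        rw [indicator_of_notMem h4, indicator_of_notMem (fun h => hr1 h.2), mul_zero]
    have hsub : Ioo (0 : ℝ) 1 ∩ Ioi 0 = Ioo 0 1 := by
      ext r
      simp only [mem_inter_iff, mem_Ioo, mem_Ioi]
      tauto
    rw [setLIntegral_congr_fun measurableSet_Ioi h3, lintegral_indicator measurableSet_Ioo,
      Measure.restrict_restrict measurableSet_Ioo, hsub,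
      lintegral_mul_const _ (by fun_prop), pow_int]
    congr 3
    rw [Nat.cast_sub hn]
    push_cast
    ring
  rw [h2, lintegral_const_mul _ hH] at h1
  rw [h1, ← mul_assoc, ← ENNReal.ofReal_natCast, ← ENNReal.ofReal_mul hn'.le,
    mul_one_div_cancel hn'.ne', ENNReal.ofReal_one, one_mul]

lemma scale_int {F : ℝ → ℝ≥0∞} (hF : Measurable F) {s : ℝ} (hs : 0 < s) :
    ∫⁻ t, F (t / s) = ENNReal.ofReal s * ∫⁻ t, F t := by
  have h1 := Real.map_volume_mul_left (a := s⁻¹) (inv_ne_zero hs.ne')
  have h2 : ∫⁻ t, F t ∂(Measure.map (fun t => s⁻¹ * t) volume) = ∫⁻ t, F (s⁻¹ * t) :=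
    lintegral_map hF (measurable_const_mul _)
  rw [h1, lintegral_smul_measure, inv_inv, abs_of_pos hs, smul_eq_mul] at h2
  rw [h2]
  refine lintegral_congr fun t => ?_
  rw [div_eq_inv_mul]

/-- integration of a function of one cube coordinate, over the part of the sphere where this
coordinate is not extremal -/
lemma cone_int {k : ℕ} (i : Fin (k + 1)) {F : ℝ → ℝ≥0∞} (hF : Measurable F) :
    ∫⁻ x, (Ioo (-1 : ℝ) 1).indicator F (cc x i) ∂(sg (k + 1)) ≤
      ((k + 1 : ℕ) : ℝ≥0∞) * (2 ^ k * ∫⁻ t in Ioo (-1 : ℝ) 1, F t) := by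
  set F1 : ℝ → ℝ≥0∞ := (Ioo (-1 : ℝ) 1).indicator F with hF1
  have hF1m : Measurable F1 := hF.indicator measurableSet_Ioo
  have hHm : Measurable fun x : E (k + 1) => F1 (cc x i) := hF1m.comp (cc_cont_on i)
  rw [hom_int (by omega) hHm (fun r x hr => by rw [cc_smul hr])]
  refine mul_le_mul_right ?_ _
  -- to the product
  set G : (Fin (k + 1) → ℝ) → ℝ≥0∞ := fun z =>
    (closedBall (0 : Fin (k + 1) → ℝ) 1).indicator (fun z => F1 (z i / ‖z‖)) z with hG
  have hGm : Measurable G := by
    refine Measurable.indicator ?_ measurableSet_closedBall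
    exact hF1m.comp ((measurable_pi_apply i).div measurable_norm)
  have h1 : ∫⁻ z in ball (0 : E (k + 1)) 1, F1 (cc z i) ≤ ∫⁻ z : Fin (k + 1) → ℝ, G z := by
    have h2 := (PiLp.volume_preserving_ofLp (Fin (k + 1))).lintegral_comp hGm
    rw [← h2, ← lintegral_indicator measurableSet_ball]
    refine lintegral_mono fun z => ?_
    by_cases hz : z ∈ ball (0 : E (k + 1)) 1
    · rw [indicator_of_mem hz]
      have h3 : WithLp.ofLp z ∈ closedBall (0 : Fin (k + 1) → ℝ) 1 := by
        rw [mem_closedBall, dist_zero_right]
        rw [mem_ball, dist_zero_right] at hz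
        exact (nu_le_norm z).trans hz.le
      simp only [hG]
      rw [indicator_of_mem h3]
      exact le_rfl
    · rw [indicator_of_notMem hz]
      exact bot_le
  refine h1.trans ?_
  have h4 := (volume_preserving_piFinSuccAbove (fun _ : Fin (k + 1) => ℝ) i).symm
  have h5 := h4.lintegral_comp hGm
  rw [← h5]
  have h6 : Measurable fun p : ℝ × (Fin k → ℝ) =>
      G ((MeasurableEquiv.piFinSuccAbove (fun _ : Fin (k + 1) => ℝ) i).symm p) :=
    hGm.comp (MeasurableEquiv.measurable _)
  rw [Measure.volume_eq_prod, lintegral_prod_symm _ h6.aemeasurable]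
  have hnorm : ∀ (t : ℝ) (z : Fin k → ℝ),
      ‖(MeasurableEquiv.piFinSuccAbove (fun _ : Fin (k + 1) => ℝ) i).symm (t, z)‖ =
        max |t| ‖z‖ := by
    intro t z
    have e1 : (MeasurableEquiv.piFinSuccAbove (fun _ : Fin (k + 1) => ℝ) i).symm (t, z) =
        i.insertNth t z := by
      rw [MeasurableEquiv.piFinSuccAbove_symm_apply]
      rfl
    rw [e1]
    refine le_antisymm ?_ (max_le ?_ ?_)
    · refine (pi_norm_le_iff_of_nonneg (le_max_of_le_left (abs_nonneg _))).2 fun j => ?_
      refine Fin.succAboveCases i ?_ (fun j => ?_) j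
      · rw [Fin.insertNth_apply_same]
        exact le_max_left _ _
      · rw [Fin.insertNth_apply_succAbove]
        exact (norm_le_pi_norm z j).trans (le_max_right _ _)
    · have := norm_le_pi_norm (i.insertNth t z : Fin (k + 1) → ℝ) i
      rwa [Fin.insertNth_apply_same] at this
    · refine (pi_norm_le_iff_of_nonneg (norm_nonneg _)).2 fun j => ?_
      have := norm_le_pi_norm (i.insertNth t z : Fin (k + 1) → ℝ) (i.succAbove j)
      rwa [Fin.insertNth_apply_succAbove] at this
  have hcoord : ∀ (t : ℝ) (z : Fin k → ℝ),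
      (MeasurableEquiv.piFinSuccAbove (fun _ : Fin (k + 1) => ℝ) i).symm (t, z) i = t := by
    intro t z
    rw [MeasurableEquiv.piFinSuccAbove_symm_apply]
    exact Fin.insertNth_apply_same (α := fun _ => ℝ) i t z
  have h7 : ∀ z : Fin k → ℝ,
      ∫⁻ t : ℝ, G ((MeasurableEquiv.piFinSuccAbove (fun _ : Fin (k + 1) => ℝ) i).symm (t, z)) ≤
      (closedBall (0 : Fin k → ℝ) 1).indicator (fun _ => ∫⁻ t in Ioo (-1 : ℝ) 1, F t) z := by
    intro z
    by_cases hz : z ∈ closedBall (0 : Fin k → ℝ) 1
    · rw [indicator_of_mem hz]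
      rw [mem_closedBall, dist_zero_right] at hz
      rcases (norm_nonneg z).eq_or_lt with hz0 | hz0
      · -- the other coordinates vanish
        have h8 : ∀ t : ℝ,
            G ((MeasurableEquiv.piFinSuccAbove (fun _ : Fin (k + 1) => ℝ) i).symm (t, z)) ≤
            ({0} : Set ℝ).indicator (fun _ => ⊤) t := by
          intro t
          by_cases ht : t = 0
          · rw [indicator_of_mem (show t ∈ ({0} : Set ℝ) from ht)]
            exact le_top
          · have h9 : F1 (t / |t|) = 0 := by
              rw [hF1]
              refine indicator_of_notMem ?_ _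
              intro h
              have h10 : |(t / |t|)| = 1 := by
                rw [abs_div, abs_abs, div_self (abs_ne_zero.2 ht)]
              rw [mem_Ioo, ← abs_lt, h10] at h
              exact lt_irrefl _ h
            simp only [hG]
            refine le_trans (indicator_le_self' (fun _ _ => bot_le) _) ?_
            rw [hnorm, hcoord, ← hz0, max_eq_left (abs_nonneg t), h9]
            exact bot_le
        refine (lintegral_mono h8).trans ?_
        rw [lintegral_indicator (measurableSet_singleton 0)]
        simp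
      · calc ∫⁻ t : ℝ,
            G ((MeasurableEquiv.piFinSuccAbove (fun _ : Fin (k + 1) => ℝ) i).symm (t, z))
            ≤ ∫⁻ t : ℝ, F1 (t / ‖z‖) := by
              refine lintegral_mono fun t => ?_
              simp only [hG]
              refine le_trans (indicator_le_self' (fun _ _ => bot_le) _) ?_
              rw [hnorm, hcoord]
              rcases le_total |t| ‖z‖ with h8 | h8
              · rw [max_eq_right h8]
              · rw [max_eq_left h8]
                have ht : 0 < |t| := hz0.trans_le h8
                have h9 : F1 (t / |t|) = 0 := by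
                  rw [hF1]
                  refine indicator_of_notMem ?_ _
                  intro h
                  have h10 : |(t / |t|)| = 1 := by
                    rw [abs_div, abs_abs, div_self ht.ne']
                  rw [mem_Ioo, ← abs_lt, h10] at h
                  exact lt_irrefl _ h
                rw [h9]
                exact bot_le
          _ = ENNReal.ofReal ‖z‖ * ∫⁻ t, F1 t := scale_int hF1m hz0
          _ ≤ 1 * ∫⁻ t, F1 t := by
              refine mul_le_mul_left ?_ _
              rw [ENNReal.ofReal_le_one]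
              exact hz
          _ = _ := by
              rw [one_mul, hF1, lintegral_indicator measurableSet_Ioo]
    · rw [indicator_of_notMem hz]
      refine le_of_eq ?_
      rw [mem_closedBall, dist_zero_right, not_le] at hz
      have h8 : ∀ t : ℝ,
          G ((MeasurableEquiv.piFinSuccAbove (fun _ : Fin (k + 1) => ℝ) i).symm (t, z)) = 0 := by
        intro t
        simp only [hG]
        refine indicator_of_notMem ?_ _
        rw [mem_closedBall, dist_zero_right, hnorm, not_le]
        exact hz.trans_le (le_max_right _ _)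
      simp only [h8, lintegral_zero]
  refine (lintegral_mono h7).trans ?_
  rw [lintegral_indicator measurableSet_closedBall, lintegral_const, Measure.restrict_apply_univ,
    mul_comm]
  refine mul_le_mul_left (le_of_eq ?_) _
  rw [Real.volume_pi_closedBall _ zero_le_one]
  simp

end Pool.Agent.H97.BP
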