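import Mathlib
set_option autoImplicit false

/-! Homeomorphisms of the sphere which act coordinatewise on the cube. -/

namespace Pool.Agent.H97.BP

open MeasureTheory Set Metric Filter Topology
open scoped ENNReal NNReal

/-- Euclidean space -/
abbrev E (n : ℕ) := EuclideanSpace ℝ (Fin n)

variable {n : ℕ}

/-- the sup norm -/
noncomputable def nu (x : E n) : ℝ := ‖(WithLp.ofLp x : Fin n → ℝ)‖

/-- the cube coordinates of a direction -/
noncomputable def cc (x : E n) (i : Fin n) : ℝ := x i / nu x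

lemma nu_nn (x : E n) : 0 ≤ nu x := norm_nonneg _

lemma nu_coord (x : E n) (i : Fin n) : |x i| ≤ nu x := norm_le_pi_norm (WithLp.ofLp x) i

lemma nu_le {x : E n} {c : ℝ} (hc : 0 ≤ c) (h : ∀ i, |x i| ≤ c) : nu x ≤ c :=
  (pi_norm_le_iff_of_nonneg hc).2 h

lemma norm_le_sum (x : E n) : ‖x‖ ≤ ∑ i, |x i| := by
  rw [EuclideanSpace.norm_eq]
  refine Real.sqrt_le_iff.2 ⟨Finset.sum_nonneg fun i _ => abs_nonneg _, ?_⟩
  have h1 : ∀ i, ‖x i‖ ^ 2 = |x i| ^ 2 := fun i => rfl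
  simp only [h1]
  rw [sq, Finset.sum_mul]
  refine Finset.sum_le_sum fun i hi => ?_
  rw [sq]
  exact mul_le_mul_of_nonneg_left (Finset.single_le_sum (f := fun i => |x i|)
    (fun i _ => abs_nonneg _) hi) (abs_nonneg _)

lemma coord_le (x : E n) (i : Fin n) : |x i| ≤ ‖x‖ := PiLp.norm_apply_le x i

lemma nu_le_norm (x : E n) : nu x ≤ ‖x‖ := nu_le (norm_nonneg _) fun i => coord_le x i

lemma norm_le_nu (x : E n) : ‖x‖ ≤ n * nu x := by
  refine (norm_le_sum x).trans ?_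
  calc ∑ i, |x i| ≤ ∑ _i : Fin n, nu x := Finset.sum_le_sum fun i _ => nu_coord x i
    _ = _ := by simp

lemma nu_pos {x : E n} (hx : x ≠ 0) : 0 < nu x := by
  have h1 := norm_le_nu x
  have h2 : 0 < ‖x‖ := norm_pos_iff.2 hx
  by_contra hcon
  have h3 : nu x = 0 := le_antisymm (not_lt.1 hcon) (nu_nn x)
  rw [h3, mul_zero] at h1
  linarith

lemma nu_cont : Continuous (nu : E n → ℝ) := by
  unfold nu
  exact (PiLp.continuous_ofLp 2 _).norm

lemma nu_smul {c : ℝ} (hc : 0 ≤ c) (x : E n) : nu (c • x) = c * nu x := by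
  unfold nu
  rw [WithLp.ofLp_smul, norm_smul, Real.norm_of_nonneg hc]

lemma nu_attained [Nonempty (Fin n)] (x : E n) : ∃ i, |x i| = nu x := by
  obtain ⟨i, -, hi⟩ := Finset.exists_max_image Finset.univ (fun i => |x i|) Finset.univ_nonempty
  refine ⟨i, le_antisymm (nu_coord x i) (nu_le (abs_nonneg _) fun j => hi j (Finset.mem_univ _))⟩

lemma nu_sub (x y : E n) : |nu x - nu y| ≤ ‖x - y‖ := by
  refine le_trans ?_ (nu_le_norm (x - y))
  unfold nu
  rw [WithLp.ofLp_sub]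
  exact abs_norm_sub_norm_le _ _

lemma cc_mem (x : E n) (i : Fin n) : cc x i ∈ Icc (-1 : ℝ) 1 := by
  have h1 : |cc x i| ≤ 1 := by
    unfold cc
    rw [abs_div, abs_of_nonneg (nu_nn x)]
    exact div_le_one_of_le₀ (nu_coord x i) (nu_nn x)
  exact abs_le.1 h1

lemma cc_smul {c : ℝ} (hc : 0 < c) (x : E n) (i : Fin n) : cc (c • x) i = cc x i := by
  unfold cc
  rw [nu_smul hc.le, PiLp.smul_apply, smul_eq_mul, mul_div_mul_left _ _ hc.ne']

/-- Lipschitz bound -/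
lemma cc_lip {x y : E n} (hx : ‖x‖ = 1) (hy : ‖y‖ = 1) (i : Fin n) :
    |cc x i - cc y i| ≤ 2 * n * ‖x - y‖ := by
  have hx0 : 0 < nu x := nu_pos (by
    intro h
    rw [h, norm_zero] at hx
    exact zero_ne_one hx)
  have hy0 : 0 < nu y := nu_pos (by
    intro h
    rw [h, norm_zero] at hy
    exact zero_ne_one hy)
  have h1 : 1 ≤ n * nu x := by
    have := norm_le_nu x
    rwa [hx] at this
  have e1 : cc x i - cc y i = ((x i - y i) + cc y i * (nu y - nu x)) / nu x := by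
    unfold cc
    field_simp
    ring
  have h2 : |x i - y i| ≤ ‖x - y‖ := by
    have := coord_le (x - y) i
    rwa [PiLp.sub_apply] at this
  have h3 : |cc y i * (nu y - nu x)| ≤ ‖x - y‖ := by
    rw [abs_mul]
    have h4 := abs_le.2 (cc_mem y i)
    have h5 := nu_sub y x
    rw [norm_sub_rev] at h5
    calc |cc y i| * |nu y - nu x| ≤ 1 * ‖x - y‖ := mul_le_mul h4 h5 (abs_nonneg _) zero_le_one
      _ = _ := one_mul _
  rw [e1, abs_div, abs_of_pos hx0, div_le_iff₀ hx0]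
  have h6 := abs_add_le (x i - y i) (cc y i * (nu y - nu x))
  have h7 : 0 ≤ ‖x - y‖ := norm_nonneg _
  nlinarith

/-- the coordinatewise map on the surface of the cube -/
noncomputable def cub (φ : ℝ → ℝ) (x : E n) : E n := WithLp.toLp 2 fun i => φ (cc x i)

lemma cub_apply (φ : ℝ → ℝ) (x : E n) (i : Fin n) : cub φ x i = φ (cc x i) := rfl

/-- the associated map of the sphere -/
noncomputable def TT (φ : ℝ → ℝ) (x : E n) : E n := ‖cub φ x‖⁻¹ • cub φ x

/-- the conditions on the change of variable -/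
structure Adm (φ : ℝ → ℝ) : Prop where
  mono : StrictMono φ
  neg : φ (-1) = -1
  one : φ 1 = 1

lemma Adm.mem {φ : ℝ → ℝ} (h : Adm φ) {t : ℝ} (ht : t ∈ Icc (-1 : ℝ) 1) :
    φ t ∈ Icc (-1 : ℝ) 1 := by
  constructor
  · rw [← h.neg]; exact h.mono.monotone ht.1
  · rw [← h.one]; exact h.mono.monotone ht.2

lemma Adm.abs_one {φ : ℝ → ℝ} (h : Adm φ) {t : ℝ} (ht : |t| = 1) : |φ t| = 1 := by
  rcases (abs_eq zero_le_one).1 ht with h1 | h1
  · rw [h1, h.one, _root_.abs_one]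
  · rw [h1, h.neg, abs_neg, _root_.abs_one]

lemma Adm.symm {φ : ℝ ≃ₜ ℝ} (h : Adm φ) : Adm φ.symm := by
  refine ⟨fun s t hst => ?_, ?_, ?_⟩
  · by_contra hcon
    have h1 := h.mono.monotone (not_lt.1 hcon)
    rw [φ.apply_symm_apply, φ.apply_symm_apply] at h1
    linarith
  · rw [φ.symm_apply_eq, h.neg]
  · rw [φ.symm_apply_eq, h.one]

lemma nu_cub [Nonempty (Fin n)] {φ : ℝ → ℝ} (h : Adm φ) {x : E n} (hx : x ≠ 0) :
    nu (cub φ x) = 1 := by
  have h0 := nu_pos hx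
  refine le_antisymm (nu_le zero_le_one fun i => ?_) ?_
  · rw [cub_apply]
    exact abs_le.2 (h.mem (cc_mem x i))
  · obtain ⟨i, hi⟩ := nu_attained x
    have h1 : |cc x i| = 1 := by
      unfold cc
      rw [abs_div, hi, abs_of_pos h0, div_self h0.ne']
    have h2 := nu_coord (cub φ x) i
    rw [cub_apply, h.abs_one h1] at h2
    exact h2

lemma norm_cub [Nonempty (Fin n)] {φ : ℝ → ℝ} (h : Adm φ) {x : E n} (hx : x ≠ 0) :
    1 ≤ ‖cub φ x‖ := by
  rw [← nu_cub h hx]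
  exact nu_le_norm _

lemma norm_TT [Nonempty (Fin n)] {φ : ℝ → ℝ} (h : Adm φ) {x : E n} (hx : x ≠ 0) :
    ‖TT φ x‖ = 1 := by
  have h1 := norm_cub h hx
  unfold TT
  rw [norm_smul, norm_inv, norm_norm, inv_mul_cancel₀ (by linarith)]

lemma TT_inv [Nonempty (Fin n)] {φ : ℝ ≃ₜ ℝ} (h : Adm φ) {x : E n} (hx : ‖x‖ = 1) :
    TT φ.symm (TT φ x) = x := by
  have hx0 : x ≠ 0 := by
    intro h
    rw [h, norm_zero] at hx
    exact zero_ne_one hx
  have h0 := nu_pos hx0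
  have h1 := norm_cub h hx0
  have h2 : ∀ i, cc (TT φ x) i = φ (cc x i) := by
    intro i
    unfold TT
    rw [cc_smul (by positivity)]
    unfold cc
    rw [nu_cub h hx0, div_one, cub_apply]
    rfl
  have h3 : cub φ.symm (TT φ x) = (nu x)⁻¹ • x := by
    ext i
    rw [cub_apply, h2, φ.symm_apply_apply, PiLp.smul_apply, smul_eq_mul]
    unfold cc
    rw [div_eq_inv_mul]
  unfold TT at h3 ⊢
  rw [h3, norm_smul, hx, mul_one, norm_inv, Real.norm_of_nonneg h0.le, inv_inv, smul_smul,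
    mul_inv_cancel₀ h0.ne', one_smul]

lemma cub_cont {φ : ℝ → ℝ} (hφ : Continuous φ) : ContinuousOn (cub φ : E n → E n) {x | x ≠ 0} := by
  have h1 : ContinuousOn (fun (x : E n) => (fun i => φ (cc x i) : Fin n → ℝ)) {x | x ≠ 0} := by
    refine continuousOn_pi.2 fun i => hφ.comp_continuousOn ?_
    unfold cc
    refine ContinuousOn.div ?_ nu_cont.continuousOn fun x hx => (nu_pos hx).ne'
    exact (PiLp.continuous_apply 2 _ i).continuousOn
  exact (PiLp.continuous_toLp 2 _).comp_continuousOn h1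

lemma TT_cont [Nonempty (Fin n)] {φ : ℝ → ℝ} (h : Adm φ) (hφ : Continuous φ) :
    ContinuousOn (TT φ : E n → E n) {x | x ≠ 0} := by
  unfold TT
  refine ContinuousOn.smul (ContinuousOn.inv₀ (cub_cont hφ).norm fun x hx => ?_) (cub_cont hφ)
  have := norm_cub h hx
  linarith

lemma sph_ne (x : sphere (0 : E n) 1) : (x : E n) ≠ 0 := by
  intro h
  have h1 : ‖(x : E n)‖ = 1 := by simp
  rw [h, norm_zero] at h1
  exact zero_ne_one h1

/-- the homeomorphism of the sphere -/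
noncomputable def TH [Nonempty (Fin n)] (φ : ℝ ≃ₜ ℝ) (h : Adm φ) :
    sphere (0 : E n) 1 ≃ₜ sphere (0 : E n) 1 where
  toFun x := ⟨TT φ x, by simpa using norm_TT h (sph_ne x)⟩
  invFun x := ⟨TT φ.symm x, by simpa using norm_TT h.symm (sph_ne x)⟩
  left_inv x := by
    ext1
    exact TT_inv h (by simp)
  right_inv x := by
    ext1
    have := TT_inv (φ := φ.symm) h.symm (x := (x : E n)) (by simp)
    exact this
  continuous_toFun := by
    refine Continuous.subtype_mk ?_ _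
    exact (TT_cont h φ.continuous).comp_continuous continuous_subtype_val fun x => sph_ne x
  continuous_invFun := by
    refine Continuous.subtype_mk ?_ _
    exact (TT_cont h.symm φ.symm.continuous).comp_continuous continuous_subtype_val
      fun x => sph_ne x

lemma TH_coe [Nonempty (Fin n)] (φ : ℝ ≃ₜ ℝ) (h : Adm φ) (x : sphere (0 : E n) 1) :
    (TH φ h x : E n) = TT φ x := rfl

/-- radial projection is Lipschitz outside the ball -/
lemma proj_lip {u v : E n} (hu : 1 ≤ ‖u‖) (hv : 1 ≤ ‖v‖) :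
    ‖‖v‖⁻¹ • v - ‖u‖⁻¹ • u‖ ≤ 2 * ‖v - u‖ := by
  have hv0 : 0 < ‖v‖ := by linarith
  have hu0 : 0 < ‖u‖ := by linarith
  have e1 : ‖v‖⁻¹ • v - ‖u‖⁻¹ • u = ‖v‖⁻¹ • (v - u) + (‖v‖⁻¹ - ‖u‖⁻¹) • u := by
    rw [smul_sub, sub_smul]
    abel
  have hvi : ‖v‖⁻¹ ≤ 1 := inv_le_one_of_one_le₀ hv
  have h1 : ‖‖v‖⁻¹ • (v - u)‖ ≤ ‖v - u‖ := by
    rw [norm_smul, norm_inv, norm_norm]
    exact mul_le_of_le_one_left (norm_nonneg _) hvi
  have h2 : ‖(‖v‖⁻¹ - ‖u‖⁻¹) • u‖ ≤ ‖v - u‖ := by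
    rw [norm_smul, Real.norm_eq_abs]
    have e2 : ‖v‖⁻¹ - ‖u‖⁻¹ = (‖u‖ - ‖v‖) * (‖v‖⁻¹ * ‖u‖⁻¹) := by field_simp
    rw [e2, abs_mul, abs_of_nonneg (by positivity : 0 ≤ ‖v‖⁻¹ * ‖u‖⁻¹)]
    have h3 : |‖u‖ - ‖v‖| ≤ ‖v - u‖ := by
      rw [norm_sub_rev]
      exact abs_norm_sub_norm_le u v
    calc |‖u‖ - ‖v‖| * (‖v‖⁻¹ * ‖u‖⁻¹) * ‖u‖ = |‖u‖ - ‖v‖| * ‖v‖⁻¹ := by field_simp
      _ ≤ ‖v - u‖ * 1 := mul_le_mul h3 hvi (by positivity) (norm_nonneg _)
      _ = _ := mul_one _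
  rw [e1]
  refine (norm_add_le _ _).trans ?_
  linarith

lemma TT_sub [Nonempty (Fin n)] {φ ψ : ℝ → ℝ} (hφ : Adm φ) (hψ : Adm ψ) {x y : E n} (hx : x ≠ 0)
    (hy : y ≠ 0) : ‖TT φ x - TT ψ y‖ ≤ 2 * ∑ i, |φ (cc x i) - ψ (cc y i)| := by
  unfold TT
  refine (proj_lip (norm_cub hψ hy) (norm_cub hφ hx)).trans ?_
  refine mul_le_mul_of_nonneg_left ?_ zero_le_two
  exact norm_le_sum (cub φ x - cub ψ y)

lemma adm_id : Adm (fun t : ℝ => t) := ⟨fun _ _ h => h, rfl, rfl⟩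

lemma TT_id [Nonempty (Fin n)] {x : E n} (hx : ‖x‖ = 1) : TT (fun t : ℝ => t) x = x := by
  have hx0 : x ≠ 0 := by
    intro h
    rw [h, norm_zero] at hx
    exact zero_ne_one hx
  have h0 := nu_pos hx0
  have h3 : cub (fun t : ℝ => t) x = (nu x)⁻¹ • x := by
    ext i
    rw [cub_apply, PiLp.smul_apply, smul_eq_mul]
    unfold cc
    rw [div_eq_inv_mul]
  unfold TT
  rw [h3, norm_smul, hx, mul_one, norm_inv, Real.norm_of_nonneg h0.le, inv_inv, smul_smul,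
    mul_inv_cancel₀ h0.ne', one_smul]

end Pool.Agent.H97.BP
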