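import Pool.Agent.H97.BP.Tau
import Pool.Agent.H97.BP.Cone
import Pool.Agent.H97.L.S8.H789R2.FR.Caps
set_option autoImplicit false

/-! Every density with a given modulus becomes a Sobolev function after one change of variable. -/

namespace Pool.Agent.H97.BP

open MeasureTheory Set Metric Filter Topology
open scoped ENNReal NNReal
open Pool.Agent.H789R2.FR (sg sg_ae sg_finite polar cap_upper)

/-- the unit sphere -/
abbrev S (n : ℕ) := sphere (0 : E n) 1

/-- surface measure on the unit sphere -/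
noncomputable abbrev sigma (n : ℕ) : Measure (S n) := (volume : Measure (E n)).toSphere

lemma lintegral_sg {n : ℕ} (f : E n → ℝ≥0∞) (hf : Measurable f) :
    ∫⁻ x, f x ∂(sg n) = ∫⁻ x : S n, f (x : E n) ∂(sigma n) := by
  rw [sg, lintegral_map hf measurable_subtype_coe]

lemma sigma_fin (n : ℕ) : IsFiniteMeasure (sigma n) := by
  have h := sg_finite n
  refine ⟨?_⟩
  have h1 := h.measure_univ_lt_top
  rw [Pool.Agent.H789R2.FR.sg_apply MeasurableSet.univ, preimage_univ] at h1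
  exact h1

lemma cap_sigma {n : ℕ} (hn : 2 ≤ n) : ∃ C : ℝ, 0 < C ∧ ∀ r : ℝ, 0 < r → ∀ x : S n,
    sigma n {y : S n | ‖(x : E n) - y‖ ≤ r} ≤ ENNReal.ofReal (C * (2 * r) ^ (n - 1)) := by
  obtain ⟨C, hC, h⟩ := cap_upper n hn
  have := sg_finite n
  refine ⟨C, hC, fun r hr x => ?_⟩
  have h1 := h (2 * r) (by linarith) (x : E n) (by simp)
  have hm : MeasurableSet {w : E n | ‖(x : E n) - w‖ < 2 * r} := by
    have : IsOpen {w : E n | ‖(x : E n) - w‖ < 2 * r} :=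
      isOpen_lt (continuous_const.sub continuous_id).norm continuous_const
    exact this.measurableSet
  have h2 : sg n {w : E n | ‖(x : E n) - w‖ < 2 * r} ≤ ENNReal.ofReal (C * (2 * r) ^ (n - 1)) := by
    rw [← ENNReal.ofReal_toReal (measure_ne_top (sg n) {w : E n | ‖(x : E n) - w‖ < 2 * r})]
    exact ENNReal.ofReal_le_ofReal h1
  refine le_trans ?_ h2
  rw [Pool.Agent.H789R2.FR.sg_apply hm]
  refine measure_mono fun y hy => ?_
  have h3 : ‖(x : E n) - y‖ ≤ r := hy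
  change ‖(x : E n) - y‖ < 2 * r
  linarith

/-- splitting of the increments -/
lemma split_G {φ : ℝ → ℝ} {D : ℝ → ℝ} {L h : ℝ} (hL : 0 ≤ L) (hh : 0 ≤ h) (hD0 : ∀ t, 0 ≤ D t)
    (hD : ∀ a ∈ Icc (-1 : ℝ) 1, ∀ b ∈ Icc (-1 : ℝ) 1, |a - b| ≤ h →
      min 1 (2 * L * |φ a - φ b|) ≤ D a) {a b : ℝ} (ha : a ∈ Icc (-1 : ℝ) 1)
    (hb : b ∈ Icc (-1 : ℝ) 1) (hab : |a - b| ≤ h) :
    min 1 (2 * L * |φ a - φ b|) ≤ (Ioo (-1 : ℝ) 1).indicator D a +
      (Ioo (-1 : ℝ) 1).indicator D b + h := by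
  have hin : ∀ t, 0 ≤ (Ioo (-1 : ℝ) 1).indicator D t := fun t =>
    indicator_nonneg (fun t _ => hD0 t) t
  by_cases h1 : a ∈ Ioo (-1 : ℝ) 1
  · rw [indicator_of_mem h1]
    have := hD a ha b hb hab
    have := hin b
    linarith
  by_cases h2 : b ∈ Ioo (-1 : ℝ) 1
  · rw [indicator_of_mem h2]
    have h3 := hD b hb a ha (by rwa [abs_sub_comm])
    rw [abs_sub_comm (φ b)] at h3
    have := hin a
    linarith
  · have e : ∀ t ∈ Icc (-1 : ℝ) 1, t ∉ Ioo (-1 : ℝ) 1 → t = -1 ∨ t = 1 := by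
      intro t ht ht'
      rw [mem_Ioo, not_and_or, not_lt, not_lt] at ht'
      rcases ht' with h | h
      · left; linarith [ht.1]
      · right; linarith [ht.2]
    have hia := hin a
    have hib := hin b
    have hm1 : min 1 (2 * L * |φ a - φ b|) ≤ 1 := min_le_left _ _
    rcases e a ha h1 with ha' | ha' <;> rcases e b hb h2 with hb' | hb'
    · have h0 : min 1 (2 * L * |φ a - φ b|) = 0 := by
        rw [ha', hb', sub_self, abs_zero, mul_zero]
        exact min_eq_right zero_le_one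
      linarith
    · rw [ha', hb'] at hab
      norm_num at hab
      linarith
    · rw [ha', hb'] at hab
      norm_num at hab
      linarith
    · have h0 : min 1 (2 * L * |φ a - φ b|) = 0 := by
        rw [ha', hb', sub_self, abs_zero, mul_zero]
        exact min_eq_right zero_le_one
      linarith

/-- the pointwise bound -/
lemma point_bound {n : ℕ} [Nonempty (Fin n)] {φ : ℝ ≃ₜ ℝ} (hφ : Adm φ) {g : S n → ℂ} {Mg κ L : ℝ}
    (hL : 0 ≤ L) (hMg : ∀ x, ‖g x‖ ≤ Mg) (hκ : 0 ≤ κ)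
    (hg : ∀ x y, ‖g x - g y‖ ≤ κ + L * dist x y) (x y : S n) :
    ‖g (TH φ hφ x) - g (TH φ hφ y)‖ ^ 2 ≤ 2 * κ ^ 2 + 2 * n * (2 * Mg + 1) ^ 2 *
      ∑ i, min 1 (2 * L * |φ (cc (x : E n) i) - φ (cc (y : E n) i)|) := by
  set G : Fin n → ℝ := fun i => min 1 (2 * L * |φ (cc (x : E n) i) - φ (cc (y : E n) i)|) with hG
  have hMg0 : 0 ≤ Mg := (norm_nonneg _).trans (hMg x)
  have hG0 : ∀ i, 0 ≤ G i := fun i => le_min zero_le_one (by positivity)
  have hG1 : ∀ i, G i ≤ 1 := fun i => min_le_left _ _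
  set Gs : ℝ := ∑ i, G i with hGs
  have hGs0 : 0 ≤ Gs := Finset.sum_nonneg fun i _ => hG0 i
  have hGn : Gs ≤ n := by
    calc Gs ≤ ∑ _i : Fin n, (1 : ℝ) := Finset.sum_le_sum fun i _ => hG1 i
      _ = n := by simp
  have hd : dist (TH φ hφ x) (TH φ hφ y) ≤
      2 * ∑ i, |φ (cc (x : E n) i) - φ (cc (y : E n) i)| := by
    rw [Subtype.dist_eq, TH_coe, TH_coe, dist_eq_norm]
    exact TT_sub hφ hφ (sph_ne x) (sph_ne y)
  have h1 := hg (TH φ hφ x) (TH φ hφ y)
  set Δ : ℝ := ‖g (TH φ hφ x) - g (TH φ hφ y)‖ with hΔ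
  have hΔ0 : 0 ≤ Δ := norm_nonneg _
  have hΔ2 : Δ ≤ 2 * Mg := by
    refine (norm_sub_le _ _).trans ?_
    linarith [hMg (TH φ hφ x), hMg (TH φ hφ y)]
  have key : Δ ≤ κ + (2 * Mg + 1) * Gs := by
    by_cases hex : ∃ i, 1 ≤ 2 * L * |φ (cc (x : E n) i) - φ (cc (y : E n) i)|
    · obtain ⟨i, hi⟩ := hex
      have h2 : G i = 1 := min_eq_left hi
      have h3 : 1 ≤ Gs := by
        rw [← h2]
        exact Finset.single_le_sum (fun i _ => hG0 i) (Finset.mem_univ i)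
      nlinarith
    · push Not at hex
      have h2 : Gs = 2 * L * ∑ i, |φ (cc (x : E n) i) - φ (cc (y : E n) i)| := by
        rw [hGs, Finset.mul_sum]
        exact Finset.sum_congr rfl fun i _ => min_eq_right (hex i).le
      have h3 : L * dist (TH φ hφ x) (TH φ hφ y) ≤ Gs := by
        rw [h2]
        have := mul_le_mul_of_nonneg_left hd hL
        linarith
      nlinarith
  have h4 : (0 : ℝ) ≤ (2 * Mg + 1) * Gs := by positivity
  calc Δ ^ 2 ≤ (κ + (2 * Mg + 1) * Gs) ^ 2 := pow_le_pow_left₀ hΔ0 key 2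
    _ ≤ 2 * κ ^ 2 + 2 * ((2 * Mg + 1) * Gs) ^ 2 := by
        nlinarith [sq_nonneg (κ - (2 * Mg + 1) * Gs)]
    _ = 2 * κ ^ 2 + 2 * (2 * Mg + 1) ^ 2 * (Gs * Gs) := by ring
    _ ≤ 2 * κ ^ 2 + 2 * (2 * Mg + 1) ^ 2 * (n * Gs) := by
        have : Gs * Gs ≤ n * Gs := mul_le_mul_of_nonneg_right hGn hGs0
        have h5 : (0 : ℝ) ≤ 2 * (2 * Mg + 1) ^ 2 := by positivity
        have := mul_le_mul_of_nonneg_left this h5
        linarith
    _ = _ := by ring

lemma pow_q (k : ℕ) : (16 : ℝ) ^ (((k + 1 : ℕ) : ℝ) - 1 + 2 * (1 / 4)) = 16 ^ (k + 1) / 4 := by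
  have e1 : ((k + 1 : ℕ) : ℝ) - 1 + 2 * (1 / 4) = ((k + 1 : ℕ) : ℝ) + (-(1 / 2)) := by
    push_cast
    ring
  rw [e1, Real.rpow_add (by norm_num), Real.rpow_natCast, Real.rpow_neg (by norm_num),
    ← Real.sqrt_eq_rpow]
  have e2 : Real.sqrt 16 = 4 := by
    rw [show (16 : ℝ) = 4 ^ 2 by norm_num]
    exact Real.sqrt_sq (by norm_num)
  rw [e2]
  ring

/-- a double integral over a symmetric neighbourhood of the diagonal -/
theorem dbl {α : Type*} [MeasurableSpace α] (μ : Measure α) [IsFiniteMeasure μ] (m : ℕ)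
    (B : Set (α × α)) (hB : MeasurableSet B) (hs : ∀ x y, (x, y) ∈ B → (y, x) ∈ B)
    (V I a b : ℝ≥0∞) (hV : ∀ x, ∫⁻ y, B.indicator (fun _ => (1 : ℝ≥0∞)) (x, y) ∂μ ≤ V)
    (f : Fin m → α → ℝ≥0∞) (hf : ∀ i, Measurable (f i)) (hI : ∀ i, ∫⁻ x, f i x ∂μ ≤ I) :
    ∫⁻ x, ∫⁻ y, B.indicator (fun p => a + b * ∑ i, (f i p.1 + f i p.2)) (x, y) ∂μ ∂μ ≤
      V * (a * μ univ + b * (m * (I + I))) := by
  have hB1m : Measurable (B.indicator (fun _ => (1 : ℝ≥0∞))) := measurable_const.indicator hB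
  have hBsym : ∀ x y, B.indicator (fun _ => (1 : ℝ≥0∞)) (x, y) =
      B.indicator (fun _ => (1 : ℝ≥0∞)) (y, x) := by
    intro x y
    by_cases h : (x, y) ∈ B
    · rw [indicator_of_mem h, indicator_of_mem (hs _ _ h)]
    · rw [indicator_of_notMem h, indicator_of_notMem (fun h' => h (hs _ _ h'))]
  have hX : ∀ (i : Fin m), ∫⁻ x, ∫⁻ y, B.indicator (fun _ => (1 : ℝ≥0∞)) (x, y) *
      f i x ∂μ ∂μ ≤ V * I := by
    intro i
    calc _ = ∫⁻ x, (∫⁻ y, B.indicator (fun _ => (1 : ℝ≥0∞)) (x, y) ∂μ) * f i x ∂μ := by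
          refine lintegral_congr fun x => ?_
          rw [lintegral_mul_const]
          exact hB1m.comp measurable_prodMk_left
      _ ≤ ∫⁻ x, V * f i x ∂μ := lintegral_mono fun x => mul_le_mul_left (hV x) _
      _ = V * ∫⁻ x, f i x ∂μ := lintegral_const_mul _ (hf i)
      _ ≤ _ := mul_le_mul_right (hI i) _
  have hmx : ∀ (i : Fin m), Measurable fun p : α × α =>
      B.indicator (fun _ => (1 : ℝ≥0∞)) (p.1, p.2) * f i p.1 := fun i =>
    Measurable.mul hB1m ((hf i).comp measurable_fst)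
  have hmy : ∀ (i : Fin m), Measurable fun p : α × α =>
      B.indicator (fun _ => (1 : ℝ≥0∞)) (p.1, p.2) * f i p.2 := fun i =>
    Measurable.mul hB1m ((hf i).comp measurable_snd)
  have hY : ∀ (i : Fin m), ∫⁻ x, ∫⁻ y, B.indicator (fun _ => (1 : ℝ≥0∞)) (x, y) *
      f i y ∂μ ∂μ ≤ V * I := by
    intro i
    rw [lintegral_lintegral_swap]
    · refine le_trans (le_of_eq ?_) (hX i)
      refine lintegral_congr fun y => lintegral_congr fun x => ?_
      rw [hBsym]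
    · exact (hmy i).aemeasurable
  have hZ : ∫⁻ x, ∫⁻ y, B.indicator (fun _ => (1 : ℝ≥0∞)) (x, y) ∂μ ∂μ ≤ V * μ univ := by
    calc _ ≤ ∫⁻ _x, V ∂μ := lintegral_mono fun x => hV x
      _ = _ := by rw [lintegral_const]
  have h1 : ∀ x y, B.indicator (fun p => a + b * ∑ i, (f i p.1 + f i p.2)) (x, y) =
      a * B.indicator (fun _ => (1 : ℝ≥0∞)) (x, y) +
      b * ∑ i, (B.indicator (fun _ => (1 : ℝ≥0∞)) (x, y) * f i x +
        B.indicator (fun _ => (1 : ℝ≥0∞)) (x, y) * f i y) := by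
    intro x y
    by_cases h : (x, y) ∈ B
    · rw [indicator_of_mem h, indicator_of_mem h]
      simp only [mul_one, one_mul]
    · rw [indicator_of_notMem h, indicator_of_notMem h]
      simp
  have hmb : ∀ x, Measurable fun y => B.indicator (fun _ => (1 : ℝ≥0∞)) (x, y) := fun x =>
    hB1m.comp measurable_prodMk_left
  have hmx' : ∀ (i : Fin m) (x : α), Measurable fun y =>
      B.indicator (fun _ => (1 : ℝ≥0∞)) (x, y) * f i x := fun i x =>
    (hmx i).comp measurable_prodMk_left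
  have hmy' : ∀ (i : Fin m) (x : α), Measurable fun y =>
      B.indicator (fun _ => (1 : ℝ≥0∞)) (x, y) * f i y := fun i x =>
    (hmy i).comp measurable_prodMk_left
  have hadd : ∀ (i : Fin m) (x : α), Measurable fun y =>
      B.indicator (fun _ => (1 : ℝ≥0∞)) (x, y) * f i x +
      B.indicator (fun _ => (1 : ℝ≥0∞)) (x, y) * f i y := fun i x => (hmx' i x).add (hmy' i x)
  have h2 : ∀ x, ∫⁻ y, B.indicator (fun p => a + b * ∑ i, (f i p.1 + f i p.2)) (x, y) ∂μ =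
      a * ∫⁻ y, B.indicator (fun _ => (1 : ℝ≥0∞)) (x, y) ∂μ + b * ∑ i,
      (∫⁻ y, B.indicator (fun _ => (1 : ℝ≥0∞)) (x, y) * f i x ∂μ +
      ∫⁻ y, B.indicator (fun _ => (1 : ℝ≥0∞)) (x, y) * f i y ∂μ) := by
    intro x
    simp only [h1]
    rw [lintegral_add_left ((hmb x).const_mul _), lintegral_const_mul _ (hmb x),
      lintegral_const_mul _ (Finset.measurable_sum _ fun i _ => hadd i x),
      lintegral_finsetSum _ (fun i _ => hadd i x)]
    congr 3
    funext i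
    rw [lintegral_add_left (hmx' i x)]
  have m0 : Measurable fun x => ∫⁻ y, B.indicator (fun _ => (1 : ℝ≥0∞)) (x, y) ∂μ :=
    Measurable.lintegral_prod_right' hB1m
  have m1 : ∀ i : Fin m, Measurable fun x => ∫⁻ y,
      B.indicator (fun _ => (1 : ℝ≥0∞)) (x, y) * f i x ∂μ :=
    fun i => Measurable.lintegral_prod_right' (hmx i)
  have m2 : ∀ i : Fin m, Measurable fun x => ∫⁻ y,
      B.indicator (fun _ => (1 : ℝ≥0∞)) (x, y) * f i y ∂μ :=
    fun i => Measurable.lintegral_prod_right' (hmy i)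
  have m3 : ∀ i : Fin m, Measurable fun x => (∫⁻ y,
      B.indicator (fun _ => (1 : ℝ≥0∞)) (x, y) * f i x ∂μ) + ∫⁻ y,
      B.indicator (fun _ => (1 : ℝ≥0∞)) (x, y) * f i y ∂μ := fun i => (m1 i).add (m2 i)
  simp only [h2]
  rw [lintegral_add_left (m0.const_mul _), lintegral_const_mul _ m0,
    lintegral_const_mul _ (Finset.measurable_sum _ fun i _ => m3 i),
    lintegral_finsetSum _ (fun i _ => m3 i)]
  have h3 : ∑ i : Fin m, ∫⁻ x, ((∫⁻ y, B.indicator (fun _ => (1 : ℝ≥0∞)) (x, y) * f i x ∂μ) +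
      ∫⁻ y, B.indicator (fun _ => (1 : ℝ≥0∞)) (x, y) * f i y ∂μ) ∂μ ≤
      m * (V * I + V * I) := by
    calc _ ≤ ∑ _i : Fin m, (V * I + V * I) := by
          refine Finset.sum_le_sum fun i _ => ?_
          rw [lintegral_add_left (m1 i)]
          exact add_le_add (hX i) (hY i)
      _ = _ := by
          rw [Finset.sum_const, Finset.card_univ, Fintype.card_fin, nsmul_eq_mul]
  calc _ ≤ a * (V * μ univ) + b * (m * (V * I + V * I)) :=
        add_le_add (mul_le_mul_right hZ _) (mul_le_mul_right h3 _)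
    _ = _ := by ring

/-- the terms of the sum over the scales -/
theorem alg (k j ν : ℕ) {C A s H κ : ℝ} (hC : 0 ≤ C) (hA : 0 ≤ A) (hs : 0 ≤ s) (hH : 0 ≤ H) :
    ENNReal.ofReal ((16 ^ (k + 1) / 4) ^ (j + 1)) * (ENNReal.ofReal (C * (4 / 16 ^ j) ^ k) *
      (ENNReal.ofReal (2 * κ ^ 2 + A * (((k + 1 : ℕ) : ℝ) * (H / 16 ^ j))) * ENNReal.ofReal s +
      ENNReal.ofReal A * (((k + 1 : ℕ) : ℝ≥0∞) *
        (((k + 1 : ℕ) : ℝ≥0∞) * (2 ^ k * ENNReal.ofReal (8 * 8 ^ ν * (j + 1) / 8 ^ j)) +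
        ((k + 1 : ℕ) : ℝ≥0∞) * (2 ^ k * ENNReal.ofReal (8 * 8 ^ ν * (j + 1) / 8 ^ j)))))) ≤
    ENNReal.ofReal ((16 ^ (k + 1) / 4) * (C * 4 ^ k) * (2 * s * (4 ^ j * κ ^ 2) +
      s * (A * (((k + 1 : ℕ) : ℝ) * H)) * (1 / 4) ^ j +
      A * (((k + 1 : ℕ) : ℝ) * (2 * (((k + 1 : ℕ) : ℝ) * (2 ^ k * (8 * 8 ^ ν))))) *
        (((j : ℝ) ^ 1 * (1 / 2) ^ j) + (1 / 2) ^ j))) := by
  have hn0 : (0 : ℝ) ≤ ((k + 1 : ℕ) : ℝ) := by positivity
  have e2 : ((k + 1 : ℕ) : ℝ≥0∞) = ENNReal.ofReal (((k + 1 : ℕ) : ℝ)) := by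
    rw [ENNReal.ofReal_natCast]
  have e3 : (2 : ℝ≥0∞) ^ k = ENNReal.ofReal ((2 : ℝ) ^ k) := by
    rw [ENNReal.ofReal_pow (by norm_num)]
    norm_num
  have hI0 : (0 : ℝ) ≤ 8 * 8 ^ ν * (j + 1) / 8 ^ j := by positivity
  have h2k : (0 : ℝ) ≤ 2 ^ k := by positivity
  have hc0 : 0 ≤ 2 * κ ^ 2 + A * (((k + 1 : ℕ) : ℝ) * (H / 16 ^ j)) := by positivity
  set N : ℝ := ((k + 1 : ℕ) : ℝ) with hN
  set I : ℝ := 8 * 8 ^ ν * (j + 1) / 8 ^ j with hI
  have hIj0 : (0 : ℝ) ≤ N * (2 ^ k * I) := by positivity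
  rw [e2, e3, ← ENNReal.ofReal_mul h2k, ← ENNReal.ofReal_mul hn0, ← ENNReal.ofReal_add hIj0 hIj0,
    ← ENNReal.ofReal_mul hn0, ← ENNReal.ofReal_mul hA, ← ENNReal.ofReal_mul hc0,
    ← ENNReal.ofReal_add (mul_nonneg hc0 hs) (by positivity), ← ENNReal.ofReal_mul (by positivity),
    ← ENNReal.ofReal_mul (by positivity)]
  refine ENNReal.ofReal_le_ofReal (le_of_eq ?_)
  have e4 : (16 ^ (k + 1) / 4 : ℝ) ^ (j + 1) * (4 / 16 ^ j : ℝ) ^ k =
      16 ^ (k + 1) / 4 * 4 ^ k * 4 ^ j := by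
    have h1 : (16 ^ (k + 1) / 4 : ℝ) ^ (j + 1) = 16 ^ (k + 1) / 4 * (16 ^ (k + 1) / 4) ^ j :=
      pow_succ' _ _
    have h2 : (16 ^ (k + 1) / 4 : ℝ) ^ j = (16 ^ k) ^ j * 4 ^ j := by
      rw [← mul_pow]
      congr 1
      rw [pow_succ]
      ring
    have h3 : (4 / 16 ^ j : ℝ) ^ k = 4 ^ k / (16 ^ k) ^ j := by
      rw [div_pow, ← pow_mul, ← pow_mul, mul_comm j k]
    rw [h1, h2, h3]
    field_simp
  have e5 : (16 ^ (k + 1) / 4 : ℝ) ^ (j + 1) * (C * (4 / 16 ^ j) ^ k *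
      ((2 * κ ^ 2 + A * (N * (H / 16 ^ j))) * s + A * (N * (N * (2 ^ k * I) + N * (2 ^ k * I))))) =
      ((16 ^ (k + 1) / 4 : ℝ) ^ (j + 1) * (4 / 16 ^ j : ℝ) ^ k) * (C *
      ((2 * κ ^ 2 + A * (N * (H / 16 ^ j))) * s + A * (N * (N * (2 ^ k * I) + N * (2 ^ k * I))))) := by
    ring
  rw [e5, e4]
  have e6 : (4 : ℝ) ^ j * I = (8 * 8 ^ ν) * ((j : ℝ) ^ 1 * (1 / 2) ^ j + (1 / 2) ^ j) := by
    have h8 : (8 : ℝ) ^ j = 4 ^ j * 2 ^ j := by rw [← mul_pow]; norm_num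
    rw [hI, h8, pow_one, one_div, inv_pow]
    field_simp
  have e7 : (4 : ℝ) ^ j * (H / 16 ^ j) = H * (1 / 4) ^ j := by
    have h16 : (16 : ℝ) ^ j = 4 ^ j * 4 ^ j := by rw [← mul_pow]; norm_num
    rw [h16, one_div, inv_pow]
    field_simp
  have e8 : 16 ^ (k + 1) / 4 * 4 ^ k * 4 ^ j * (C *
      ((2 * κ ^ 2 + A * (N * (H / 16 ^ j))) * s + A * (N * (N * (2 ^ k * I) + N * (2 ^ k * I))))) =
      16 ^ (k + 1) / 4 * (C * 4 ^ k) * (2 * s * (4 ^ j * κ ^ 2) + s * (A * N) * (4 ^ j * (H / 16 ^ j)) +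
      A * (N * (2 * (N * 2 ^ k))) * (4 ^ j * I)) := by ring
  rw [e8, e6, e7]
  ring

/-- **Sobolev regularity after a change of variable.** -/
theorem gag {n : ℕ} (hn : 3 ≤ n) (L : ℕ → ℝ) (hL : ∀ j, 0 ≤ L j) {ε : ℝ} (hε : 0 < ε) :
    ∃ T : S n ≃ₜ S n, (∀ x, dist (T x) x ≤ ε) ∧
      ∀ (g : S n → ℂ) (Mg : ℝ) (κ : ℕ → ℝ), Continuous g → (∀ x, ‖g x‖ ≤ Mg) → (∀ j, 0 ≤ κ j) →
        (Summable fun j => 4 ^ j * κ j ^ 2) →
        (∀ j x y, ‖g x - g y‖ ≤ κ j + L j * dist x y) →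
        ∫⁻ x, ∫⁻ y, ENNReal.ofReal (‖g (T x) - g (T y)‖ ^ 2 /
          ‖(x : E n) - (y : E n)‖ ^ ((n : ℝ) - 1 + 2 * (1 / 4))) ∂(sigma n) ∂(sigma n) < ∞ := by
  obtain ⟨k, rfl⟩ : ∃ k, n = k + 1 := ⟨n - 1, by omega⟩
  set n : ℕ := k + 1 with hnk
  have hn0 : (0 : ℝ) < n := by rw [hnk]; positivity
  have : Nonempty (Fin n) := ⟨⟨0, by omega⟩⟩
  have := sigma_fin n
  -- the number of steps
  obtain ⟨N, hN⟩ := exists_nat_gt (4 * n / ε)
  have hN0 : 0 < N := by
    have h1 : (0 : ℝ) < N := lt_trans (by positivity) hN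
    exact_mod_cast h1
  have hN0' : (0 : ℝ) < N := by exact_mod_cast hN0
  set H : ℝ := 4 * n with hH
  have hH0 : 0 ≤ H := by positivity
  obtain ⟨ν, hν7, hν⟩ : ∃ ν : ℕ, 7 ≤ ν ∧ (N : ℝ) * H / 2 ≤ 16 ^ ν := by
    obtain ⟨ν, hν⟩ := pow_unbounded_of_one_lt ((N : ℝ) * H / 2) (by norm_num : (1 : ℝ) < 16)
    exact ⟨max 7 ν, le_max_left _ _, hν.le.trans (pow_le_pow_right₀ (by norm_num)
      (le_max_right _ _))⟩
  obtain ⟨φ, D, hφs, hφm, hφ1, hφc, hDm, hD0, hDb, hDi⟩ := exists_tau L hL hN0 hH0 hν7 hν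
  have hφ : Adm φ := ⟨hφs, hφm, hφ1⟩
  obtain ⟨C, hC, hcap⟩ := cap_sigma (n := n) (by omega)
  refine ⟨TH φ hφ, fun x => ?_, fun g Mg κ hgc hMg hκ hκs hg => ?_⟩
  · -- close to the identity
    have h1 : dist (TH φ hφ x) x ≤ 2 * ∑ i, |φ (cc (x : E n) i) - cc (x : E n) i| := by
      rw [Subtype.dist_eq, TH_coe, dist_eq_norm]
      have h2 := TT_sub hφ adm_id (sph_ne x) (sph_ne x)
      rw [TT_id (by simp)] at h2
      exact h2
    refine h1.trans ?_
    calc 2 * ∑ i, |φ (cc (x : E n) i) - cc (x : E n) i| ≤ 2 * ∑ _i : Fin n, (2 / N : ℝ) := by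
          refine mul_le_mul_of_nonneg_left (Finset.sum_le_sum fun i _ => ?_) zero_le_two
          exact hφc _ (cc_mem _ _)
      _ = 4 * n / N := by
          rw [Finset.sum_const, Finset.card_univ, Fintype.card_fin, nsmul_eq_mul]
          ring
      _ ≤ ε := by
          rw [div_lt_iff₀ hε] at hN
          rw [div_le_iff₀ hN0']
          linarith
  -- the main estimate
  have hMg0 : 0 ≤ Mg := by
    have : Nonempty (S n) := by
      have := (NormedSpace.sphere_nonempty (x := (0 : E n)) (r := 1)).2 zero_le_one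
      exact this.to_subtype
    exact (norm_nonneg _).trans (hMg (Classical.arbitrary _))
  set A : ℝ := 2 * n * (2 * Mg + 1) ^ 2 with hA
  have hA0 : 0 ≤ A := by positivity
  set q : ℝ := (n : ℝ) - 1 + 2 * (1 / 4) with hq
  have hq0 : 0 < q := by
    rw [hq]
    have : (3 : ℝ) ≤ n := by exact_mod_cast hn
    linarith
  set Q : ℝ := 16 ^ n / 4 with hQ
  have hQ0 : 0 < Q := by positivity
  have hQq : (16 : ℝ) ^ q = Q := pow_q k
  set hj : ℕ → ℝ := fun j => H / 16 ^ j with hhj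
  have hhj0 : ∀ j, 0 ≤ hj j := fun j => by positivity
  set d : ℕ → ℝ → ℝ≥0∞ := fun j => (Ioo (-1 : ℝ) 1).indicator fun t => ENNReal.ofReal (D j t)
    with hd
  have hdm : ∀ j, Measurable (d j) := fun j => (hDm j).ennreal_ofReal.indicator measurableSet_Ioo
  have hdD : ∀ j t, ENNReal.ofReal ((Ioo (-1 : ℝ) 1).indicator (D j) t) = d j t := by
    intro j t
    simp only [hd]
    by_cases ht : t ∈ Ioo (-1 : ℝ) 1
    · rw [indicator_of_mem ht, indicator_of_mem ht]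
    · rw [indicator_of_notMem ht, indicator_of_notMem ht, ENNReal.ofReal_zero]
  set c : ℕ → ℝ := fun j => 2 * κ j ^ 2 + A * (n * hj j) with hc
  have hc0 : ∀ j, 0 ≤ c j := fun j => by
    have := hhj0 j
    positivity
  set W : ℕ → S n → S n → ℝ≥0∞ := fun j x y => ENNReal.ofReal (c j) + ENNReal.ofReal A *
    ∑ i, (d j (cc (x : E n) i) + d j (cc (y : E n) i)) with hW
  set B : ℕ → Set (S n × S n) := fun j => {p | ‖(p.1 : E n) - p.2‖ ≤ 2 / 16 ^ j} with hB
  have hBm : ∀ j, MeasurableSet (B j) := by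
    intro j
    have : IsClosed (B j) := isClosed_le (by fun_prop) continuous_const
    exact this.measurableSet
  have hpt : ∀ x y : S n, ENNReal.ofReal (‖g (TH φ hφ x) - g (TH φ hφ y)‖ ^ 2 /
      ‖(x : E n) - (y : E n)‖ ^ q) ≤ ∑' j, ENNReal.ofReal (Q ^ (j + 1)) *
        (B j).indicator (fun p => W j p.1 p.2) (x, y) := by
    intro x y
    by_cases hxy : x = y
    · rw [hxy, sub_self, norm_zero]
      simp
    have hr0 : 0 < ‖(x : E n) - y‖ := by
      rw [norm_pos_iff, sub_ne_zero]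
      exact fun h => hxy (Subtype.ext h)
    have hr2 : ‖(x : E n) - y‖ ≤ 2 := by
      refine (norm_sub_le _ _).trans ?_
      have h1 : ‖(x : E n)‖ = 1 := by simp
      have h2 : ‖(y : E n)‖ = 1 := by simp
      rw [h1, h2]
      norm_num
    obtain ⟨j, hj1, hj2⟩ := exists_nat_pow_near_of_lt_one (x := ‖(x : E n) - y‖ / 2) (y := 1 / 16)
      (by positivity) (by linarith) (by norm_num) (by norm_num)
    refine le_trans ?_ (ENNReal.le_tsum j)
    have hmem : (x, y) ∈ B j := by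
      change ‖(x : E n) - y‖ ≤ 2 / 16 ^ j
      rw [one_div, inv_pow] at hj2
      rw [div_eq_mul_inv]
      linarith
    rw [indicator_of_mem hmem]
    have hxyh : ∀ i, |cc (x : E n) i - cc (y : E n) i| ≤ H / 16 ^ j := by
      intro i
      refine (cc_lip (by simp) (by simp) i).trans ?_
      have h1 : ‖(x : E n) - y‖ ≤ 2 / 16 ^ j := hmem
      calc 2 * n * ‖(x : E n) - y‖ ≤ 2 * n * (2 / 16 ^ j) :=
            mul_le_mul_of_nonneg_left h1 (by positivity)
        _ = H / 16 ^ j := by rw [hH]; ring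
    have h1 := point_bound hφ (hL j) hMg (hκ j) (hg j) x y
    have h2 : ‖g (TH φ hφ x) - g (TH φ hφ y)‖ ^ 2 ≤ c j + A * ∑ i,
        ((Ioo (-1 : ℝ) 1).indicator (D j) (cc (x : E n) i) +
          (Ioo (-1 : ℝ) 1).indicator (D j) (cc (y : E n) i)) := by
      refine h1.trans ?_
      have h3 : ∑ i, min 1 (2 * L j * |φ (cc (x : E n) i) - φ (cc (y : E n) i)|) ≤
          ∑ i, ((Ioo (-1 : ℝ) 1).indicator (D j) (cc (x : E n) i) +
          (Ioo (-1 : ℝ) 1).indicator (D j) (cc (y : E n) i)) + n * hj j := by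
        calc _ ≤ ∑ i : Fin n, ((Ioo (-1 : ℝ) 1).indicator (D j) (cc (x : E n) i) +
            (Ioo (-1 : ℝ) 1).indicator (D j) (cc (y : E n) i) + hj j) :=
              Finset.sum_le_sum fun i _ => split_G (hL j) (hhj0 j) (hD0 j) (hDb j)
                (cc_mem _ _) (cc_mem _ _) (hxyh i)
          _ = _ := by
              rw [Finset.sum_add_distrib, Finset.sum_const, Finset.card_univ, Fintype.card_fin,
                nsmul_eq_mul]
      have h4 := mul_le_mul_of_nonneg_left h3 hA0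
      simp only [hc]
      rw [← hA]
      linarith
    have h5 : 1 / ‖(x : E n) - y‖ ^ q ≤ Q ^ (j + 1) := by
      have h6 : (1 / 16 : ℝ) ^ (j + 1) ≤ ‖(x : E n) - y‖ := by linarith
      have h7 : ((1 / 16 : ℝ) ^ (j + 1)) ^ q ≤ ‖(x : E n) - y‖ ^ q :=
        Real.rpow_le_rpow (by positivity) h6 hq0.le
      have h8 : ((1 / 16 : ℝ) ^ (j + 1)) ^ q = (Q ^ (j + 1))⁻¹ := by
        rw [one_div, inv_pow, Real.inv_rpow (by positivity), ← hQq, ← Real.rpow_natCast,
          ← Real.rpow_natCast, ← Real.rpow_mul (by norm_num), ← Real.rpow_mul (by norm_num),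
          mul_comm q]
      rw [h8] at h7
      rw [one_div]
      exact inv_le_of_inv_le₀ (by positivity) h7
    calc ENNReal.ofReal (‖g (TH φ hφ x) - g (TH φ hφ y)‖ ^ 2 / ‖(x : E n) - (y : E n)‖ ^ q)
        ≤ ENNReal.ofReal (Q ^ (j + 1) * (c j + A * ∑ i,
        ((Ioo (-1 : ℝ) 1).indicator (D j) (cc (x : E n) i) +
          (Ioo (-1 : ℝ) 1).indicator (D j) (cc (y : E n) i)))) := by
          refine ENNReal.ofReal_le_ofReal ?_
          rw [div_eq_mul_one_div, mul_comm]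
          exact mul_le_mul h5 h2 (by positivity) (by positivity)
      _ = _ := by
          have hin : ∀ t, 0 ≤ (Ioo (-1 : ℝ) 1).indicator (D j) t := fun t =>
            indicator_nonneg (fun t _ => hD0 j t) t
          rw [ENNReal.ofReal_mul (by positivity), ENNReal.ofReal_add (hc0 j)
            (mul_nonneg hA0 (Finset.sum_nonneg fun i _ => add_nonneg (hin _) (hin _))),
            ENNReal.ofReal_mul hA0, ENNReal.ofReal_sum_of_nonneg
            (fun i _ => add_nonneg (hin _) (hin _))]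
          simp only [hW]
          congr 3
          refine Finset.sum_congr rfl fun i _ => ?_
          rw [ENNReal.ofReal_add (hin _) (hin _), hdD, hdD]
  -- measurability
  have hccm : ∀ i, Measurable fun x : S n => cc (x : E n) i := fun i =>
    (cc_cont_on i).comp measurable_subtype_coe
  have hf : ∀ j (i : Fin n), Measurable fun x : S n => d j (cc (x : E n) i) := fun j i =>
    (hdm j).comp (hccm i)
  -- caps
  have hcapV : ∀ j (x : S n), ∫⁻ y, (B j).indicator (fun _ => (1 : ℝ≥0∞)) (x, y) ∂(sigma n) ≤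
      ENNReal.ofReal (C * (4 / 16 ^ j) ^ k) := by
    intro j x
    have h1 : (fun y : S n => (B j).indicator (fun _ => (1 : ℝ≥0∞)) (x, y)) =
        {y : S n | ‖(x : E n) - y‖ ≤ 2 / 16 ^ j}.indicator fun _ => 1 := by
      funext y
      rfl
    have hm : MeasurableSet {y : S n | ‖(x : E n) - y‖ ≤ 2 / 16 ^ j} := by
      have : IsClosed {y : S n | ‖(x : E n) - y‖ ≤ 2 / 16 ^ j} :=
        isClosed_le (by fun_prop) continuous_const
      exact this.measurableSet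
    rw [h1, lintegral_indicator_const hm, one_mul]
    refine (hcap (2 / 16 ^ j) (by positivity) x).trans (le_of_eq ?_)
    simp only [hnk]
    congr 3
    ring
  have hBsym : ∀ j (x y : S n), (x, y) ∈ B j → (y, x) ∈ B j := by
    intro j x y h
    change ‖(y : E n) - x‖ ≤ _
    rw [norm_sub_rev]
    exact h
  -- one coordinate
  have hone : ∀ j (i : Fin n), ∫⁻ x : S n, d j (cc (x : E n) i) ∂(sigma n) ≤
      ((k + 1 : ℕ) : ℝ≥0∞) * (2 ^ k * ENNReal.ofReal (8 * 8 ^ ν * (j + 1) / 8 ^ j)) := by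
    intro j i
    have h1 := cone_int i (hDm j).ennreal_ofReal
    have h2 := lintegral_sg (fun x : E n => d j (cc x i)) ((hdm j).comp (cc_cont_on i))
    refine h2.symm.le.trans (h1.trans ?_)
    gcongr
    exact hDi j
  have hWm : ∀ j, Measurable fun p : S n × S n => W j p.1 p.2 := by
    intro j
    simp only [hW]
    refine Measurable.const_add ?_ _
    refine Measurable.const_mul ?_ _
    refine Finset.measurable_sum _ fun i _ => ?_
    exact Measurable.add (f := fun p : S n × S n => d j (cc (p.1 : E n) i))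
      (g := fun p : S n × S n => d j (cc (p.2 : E n) i))
      ((hf j i).comp measurable_fst) ((hf j i).comp measurable_snd)
  have hIm : ∀ j, Measurable fun p : S n × S n => ENNReal.ofReal (Q ^ (j + 1)) *
      (B j).indicator (fun p => W j p.1 p.2) p := fun j =>
    measurable_const.mul ((hWm j).indicator (hBm j))
  have hterm : ∀ j, ∫⁻ x, ∫⁻ y, ENNReal.ofReal (Q ^ (j + 1)) *
      (B j).indicator (fun p => W j p.1 p.2) (x, y) ∂(sigma n) ∂(sigma n) ≤
      ENNReal.ofReal (Q ^ (j + 1)) * (ENNReal.ofReal (C * (4 / 16 ^ j) ^ k) *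
        (ENNReal.ofReal (c j) * sigma n univ +
        ENNReal.ofReal A * (((k + 1 : ℕ) : ℝ≥0∞) *
        (((k + 1 : ℕ) : ℝ≥0∞) * (2 ^ k * ENNReal.ofReal (8 * 8 ^ ν * (j + 1) / 8 ^ j)) +
        ((k + 1 : ℕ) : ℝ≥0∞) * (2 ^ k * ENNReal.ofReal (8 * 8 ^ ν * (j + 1) / 8 ^ j)))))) := by
    intro j
    have hm1 : ∀ x : S n, Measurable fun y : S n =>
        (B j).indicator (fun p => W j p.1 p.2) (x, y) := fun x =>
      ((hWm j).indicator (hBm j)).comp measurable_prodMk_left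
    have hm2 : Measurable fun x : S n => ∫⁻ y : S n,
        (B j).indicator (fun p => W j p.1 p.2) (x, y) ∂(sigma n) :=
      Measurable.lintegral_prod_right' ((hWm j).indicator (hBm j))
    calc _ = ENNReal.ofReal (Q ^ (j + 1)) * ∫⁻ x, ∫⁻ y,
          (B j).indicator (fun p => W j p.1 p.2) (x, y) ∂(sigma n) ∂(sigma n) := by
          rw [← lintegral_const_mul _ hm2]
          exact lintegral_congr fun x => lintegral_const_mul _ (hm1 x)
      _ ≤ _ := mul_le_mul_right (dbl (sigma n) n (B j) (hBm j) (hBsym j) _ _ _ _ (hcapV j)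
          (fun i x => d j (cc (x : E n) i)) (hf j) (hone j)) _
  -- summation
  set s : ℝ := (sigma n univ).toReal with hs
  have hs0 : 0 ≤ s := ENNReal.toReal_nonneg
  have e1 : sigma n univ = ENNReal.ofReal s := (ENNReal.ofReal_toReal (measure_ne_top _ _)).symm
  set R : ℕ → ℝ := fun j => (16 ^ (k + 1) / 4) * (C * 4 ^ k) * (2 * s * (4 ^ j * κ j ^ 2) +
      s * (A * (((k + 1 : ℕ) : ℝ) * H)) * (1 / 4) ^ j +
      A * (((k + 1 : ℕ) : ℝ) * (2 * (((k + 1 : ℕ) : ℝ) * (2 ^ k * (8 * 8 ^ ν))))) *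
        (((j : ℝ) ^ 1 * (1 / 2) ^ j) + (1 / 2) ^ j)) with hR
  have hRs : Summable R := by
    refine Summable.mul_left _ (((hκs.mul_left _).add (Summable.mul_left _ ?_)).add
      (Summable.mul_left _ (Summable.add ?_ ?_)))
    · exact summable_geometric_of_lt_one (by norm_num) (by norm_num)
    · exact summable_pow_mul_geometric_of_norm_lt_one 1 (by norm_num)
    · exact summable_geometric_of_lt_one (by norm_num) (by norm_num)
  have hbR : ∀ j, ∫⁻ x, ∫⁻ y, ENNReal.ofReal (Q ^ (j + 1)) *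
      (B j).indicator (fun p => W j p.1 p.2) (x, y) ∂(sigma n) ∂(sigma n) ≤
      ENNReal.ofReal (R j) := by
    intro j
    refine (hterm j).trans ?_
    rw [e1]
    exact alg k j ν hC.le hA0 hs0 hH0
  calc ∫⁻ x, ∫⁻ y, ENNReal.ofReal (‖g (TH φ hφ x) - g (TH φ hφ y)‖ ^ 2 /
        ‖(x : E n) - (y : E n)‖ ^ q) ∂(sigma n) ∂(sigma n)
      ≤ ∫⁻ x, ∫⁻ y, ∑' j, ENNReal.ofReal (Q ^ (j + 1)) *
        (B j).indicator (fun p => W j p.1 p.2) (x, y) ∂(sigma n) ∂(sigma n) :=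
        lintegral_mono fun x => lintegral_mono fun y => hpt x y
    _ = ∑' j, ∫⁻ x, ∫⁻ y, ENNReal.ofReal (Q ^ (j + 1)) *
        (B j).indicator (fun p => W j p.1 p.2) (x, y) ∂(sigma n) ∂(sigma n) := by
        rw [← lintegral_tsum]
        · refine lintegral_congr fun x => ?_
          rw [lintegral_tsum]
          intro j
          exact ((hIm j).comp measurable_prodMk_left).aemeasurable
        · intro j
          exact (Measurable.lintegral_prod_right' (hIm j)).aemeasurable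
    _ ≤ ∑' j, ENNReal.ofReal (R j) := ENNReal.tsum_le_tsum fun j => hbR j
    _ < ∞ := hRs.tsum_ofReal_lt_top

end Pool.Agent.H97.BP
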