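import Mathlib
import Pool.Agent.H97.L.S8.H789R2.FR.Core1
set_option autoImplicit false

/-!
# Stein's restriction conjecture for bounded densities of Sobolev class

For every `n ≥ 3` and every bounded density `g` on the unit sphere of `ℝ^n` whose Gagliardo
seminorm of order `s > (n-1)/(2(2n-1))` is finite, the Fourier transform of `g dσ` lies in `L^p(ℝ^n)`
for every `p > 2n/(n-1)`.
-/

namespace Pool.Agent.H97.BP.Sob

open MeasureTheory Measure Set Metric Complex Filter Topology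
open Pool.Agent.H789R2.FR
open scoped ENNReal Pointwise RealInnerProductSpace

lemma lintegral_sg {n : ℕ} (f : E n → ℝ≥0∞) (hf : Measurable f) :
    ∫⁻ x, f x ∂(sg n) = ∫⁻ x : sphere (0 : E n) 1, f (x : E n)
      ∂((volume : Measure (E n)).toSphere) := by
  rw [sg, lintegral_map hf measurable_subtype_coe]

lemma integral_sg {n : ℕ} (f : E n → ℂ) (hf : AEStronglyMeasurable f (sg n)) :
    ∫ x, f x ∂(sg n) = ∫ x : sphere (0 : E n) 1, f (x : E n)
      ∂((volume : Measure (E n)).toSphere) := by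
  rw [sg] at hf ⊢
  rw [integral_map measurable_subtype_coe.aemeasurable hf]

/-- a bounded measurable extension of a bounded density to the whole space -/
lemma exists_ext {n : ℕ} (g : sphere (0 : E n) 1 → ℂ)
    (hg : MemLp g ∞ (volume : Measure (E n)).toSphere) :
    ∃ (G : E n → ℂ) (M : ℝ), Measurable G ∧ (∀ x, ‖G x‖ ≤ M) ∧
      ∀ᵐ x : sphere (0 : E n) 1 ∂((volume : Measure (E n)).toSphere), G (x : E n) = g x := by
  obtain ⟨g0, hg0, hgg⟩ := hg.1
  have h1 : eLpNormEssSup g (volume : Measure (E n)).toSphere ≠ ⊤ := by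
    have := hg.2.ne
    rwa [eLpNorm_exponent_top] at this
  set M : ℝ := (eLpNormEssSup g (volume : Measure (E n)).toSphere).toReal with hMdef
  have hM : ∀ᵐ x ∂((volume : Measure (E n)).toSphere), ‖g x‖ ≤ M := by
    filter_upwards [enorm_ae_le_eLpNormEssSup g (volume : Measure (E n)).toSphere] with x hx
    rw [hMdef, ← toReal_enorm]
    exact ENNReal.toReal_mono h1 hx
  have hM0 : 0 ≤ M := ENNReal.toReal_nonneg
  set g1 : sphere (0 : E n) 1 → ℂ := {x | ‖g0 x‖ ≤ M}.indicator g0 with hg1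
  have hg1m : Measurable g1 :=
    hg0.measurable.indicator (measurableSet_le hg0.measurable.norm measurable_const)
  have hg1b : ∀ x, ‖g1 x‖ ≤ M := by
    intro x
    by_cases h : ‖g0 x‖ ≤ M
    · rw [hg1, indicator_of_mem (show x ∈ {x | ‖g0 x‖ ≤ M} from h)]
      exact h
    · rw [hg1, indicator_of_notMem (show x ∉ {x | ‖g0 x‖ ≤ M} from h)]
      simpa using hM0
  refine ⟨Function.extend Subtype.val g1 0, M, ?_, ?_, ?_⟩
  · exact (MeasurableEmbedding.subtype_coe isClosed_sphere.measurableSet).measurable_extend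
      hg1m measurable_zero
  · intro x
    by_cases h : ∃ y : sphere (0 : E n) 1, (y : E n) = x
    · obtain ⟨y, rfl⟩ := h
      rw [Subtype.val_injective.extend_apply]
      exact hg1b y
    · rw [Function.extend_apply' _ _ _ h]
      simpa using hM0
  · filter_upwards [hgg, hM] with x hx hMx
    rw [Subtype.val_injective.extend_apply, hg1,
      indicator_of_mem (show x ∈ {x | ‖g0 x‖ ≤ M} from by
        change ‖g0 x‖ ≤ M
        rw [← hx]; exact hMx), hx]

/-- **Stein's restriction conjecture for bounded densities in `H^s`, `s > (n-1)/(2(2n-1))`.** -/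
theorem result (n : ℕ) (hn : 3 ≤ n) (s : ℝ) (hs : ((n : ℝ) - 1) / (2 * (2 * n - 1)) < s)
    (g : sphere (0 : EuclideanSpace ℝ (Fin n)) 1 → ℂ)
    (hg : MemLp g ∞ (volume : Measure (EuclideanSpace ℝ (Fin n))).toSphere)
    (hreg : ∫⁻ x, ∫⁻ y, ENNReal.ofReal (‖g x - g y‖ ^ 2 /
        ‖(x : EuclideanSpace ℝ (Fin n)) - (y : EuclideanSpace ℝ (Fin n))‖ ^ ((n : ℝ) - 1 + 2 * s))
        ∂((volume : Measure (EuclideanSpace ℝ (Fin n))).toSphere)
        ∂((volume : Measure (EuclideanSpace ℝ (Fin n))).toSphere) < ∞)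
    (p : ℝ) (hp : 2 * (n : ℝ) / ((n : ℝ) - 1) < p) :
    MemLp (fun ξ : EuclideanSpace ℝ (Fin n) => ∫ x : sphere (0 : EuclideanSpace ℝ (Fin n)) 1,
        Complex.exp (-(2 * Real.pi * ⟪(x : EuclideanSpace ℝ (Fin n)), ξ⟫ : ℝ) * I) * g x
        ∂((volume : Measure (EuclideanSpace ℝ (Fin n))).toSphere))
      (ENNReal.ofReal p) (volume : Measure (EuclideanSpace ℝ (Fin n))) := by
  have hn2 : (3 : ℝ) ≤ n := by exact_mod_cast hn
  have hn1 : (0 : ℝ) < (n : ℝ) - 1 := by linarith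
  have hp0 : 0 < p := lt_trans (by positivity) hp
  obtain ⟨G, M, hGm, hGb, hGg⟩ := exists_ext g hg
  -- the seminorm of G
  set q : ℝ := (n : ℝ) - 1 + 2 * s with hq
  have hk : Measurable (fun z : E n × E n =>
      ENNReal.ofReal (‖G z.1 - G z.2‖ ^ 2 / ‖z.1 - z.2‖ ^ q)) := by
    apply Measurable.ennreal_ofReal
    exact (((hGm.comp measurable_fst).sub (hGm.comp measurable_snd)).norm.pow_const 2).div
      ((measurable_fst.sub measurable_snd).norm.pow_const q)
  have := sg_finite n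
  have hK : (∫⁻ x, ∫⁻ y, ENNReal.ofReal (‖G x - G y‖ ^ 2 / ‖x - y‖ ^ q) ∂(sg n) ∂(sg n)) =
      ∫⁻ x, ∫⁻ y, ENNReal.ofReal (‖g x - g y‖ ^ 2 / ‖(x : E n) - (y : E n)‖ ^ q)
        ∂((volume : Measure (E n)).toSphere) ∂((volume : Measure (E n)).toSphere) := by
    rw [lintegral_sg _ hk.lintegral_prod_right']
    apply lintegral_congr_ae
    filter_upwards [hGg] with x hx
    rw [lintegral_sg (fun y => ENNReal.ofReal (‖G (x : E n) - G y‖ ^ 2 / ‖(x : E n) - y‖ ^ q))
      (hk.comp (measurable_const.prodMk measurable_id))]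
    apply lintegral_congr_ae
    filter_upwards [hGg] with y hy
    rw [hx, hy]
  have hKlt : (∫⁻ x, ∫⁻ y, ENNReal.ofReal (‖G x - G y‖ ^ 2 / ‖x - y‖ ^ q) ∂(sg n) ∂(sg n)) < ∞ := by
    rw [hK]
    exact hreg
  have hs0 : 0 < s := lt_trans (div_pos hn1 (by linarith)) hs
  obtain ⟨C0, hC0, hrem⟩ := rem_bound n (by omega) s hs0
  set K : ℝ := (∫⁻ x, ∫⁻ y, ENNReal.ofReal (‖G x - G y‖ ^ 2 / ‖x - y‖ ^ q)
    ∂(sg n) ∂(sg n)).toReal with hKdef
  have hK0 : 0 ≤ K := ENNReal.toReal_nonneg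
  have hcore := core1 n (by omega) s hs G hGm M hGb (C0 * K) (mul_nonneg hC0.le hK0)
    (fun R hR => hrem G hGm ⟨M, hGb⟩ K hK0 (by rw [hKdef, ENNReal.ofReal_toReal hKlt.ne]) R hR)
    p hp
  -- the Fourier transform in terms of T
  have hTG : ∀ ξ : E n, ∫ x : sphere (0 : E n) 1,
      Complex.exp (-(2 * Real.pi * ⟪(x : E n), ξ⟫ : ℝ) * I) * g x
        ∂((volume : Measure (E n)).toSphere) = T G ((2 * Real.pi) • ξ) := by
    intro ξ
    rw [T, integral_sg _ (T_integrable hGm hGb _).aestronglyMeasurable]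
    apply integral_congr_ae
    filter_upwards [hGg] with x hx
    rw [hx, inner_smul_left, real_inner_comm]
    simp
  have hfun : (fun ξ : E n => ∫ x : sphere (0 : E n) 1,
      Complex.exp (-(2 * Real.pi * ⟪(x : E n), ξ⟫ : ℝ) * I) * g x
        ∂((volume : Measure (E n)).toSphere)) = fun ξ => T G ((2 * Real.pi) • ξ) :=
    funext hTG
  change MemLp (fun ξ : E n => ∫ x : sphere (0 : E n) 1,
      Complex.exp (-(2 * Real.pi * ⟪(x : E n), ξ⟫ : ℝ) * I) * g x
        ∂((volume : Measure (E n)).toSphere)) (ENNReal.ofReal p) volume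
  rw [hfun]
  have hTm := T_meas hGm
  have h2pi : (2 * Real.pi) ≠ 0 := by positivity
  have hme : Measurable (fun ξ : E n => T G ((2 * Real.pi) • ξ)) :=
    hTm.comp (measurable_const_smul _)
  refine ⟨hme.aestronglyMeasurable, ?_⟩
  rw [eLpNorm_lt_top_iff_lintegral_rpow_enorm_lt_top (by simpa using hp0) ENNReal.ofReal_ne_top,
    ENNReal.toReal_ofReal hp0.le]
  have h1 : ∀ x : E n, ‖T G x‖ₑ ^ p = ENNReal.ofReal (‖T G x‖ ^ p) := by
    intro x
    rw [← ofReal_norm, ENNReal.ofReal_rpow_of_nonneg (norm_nonneg _) hp0.le]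
  have h2 : ∫⁻ ξ : E n, ‖T G ((2 * Real.pi) • ξ)‖ₑ ^ p =
      ENNReal.ofReal |((2 * Real.pi) ^ Module.finrank ℝ (E n))⁻¹| *
        ∫⁻ x : E n, ENNReal.ofReal (‖T G x‖ ^ p) := by
    have h3 := Measure.map_addHaar_smul (volume : Measure (E n)) h2pi
    have h4 : ∫⁻ x : E n, ENNReal.ofReal (‖T G x‖ ^ p)
        ∂(Measure.map ((2 * Real.pi) • · : E n → E n) volume) =
        ∫⁻ ξ : E n, ENNReal.ofReal (‖T G ((2 * Real.pi) • ξ)‖ ^ p) :=
      lintegral_map (hTm.norm.pow_const p).ennreal_ofReal (measurable_const_smul _)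
    rw [h3, lintegral_smul_measure] at h4
    simp_rw [h1]
    rw [← h4, smul_eq_mul]
  rw [h2]
  exact ENNReal.mul_lt_top ENNReal.ofReal_lt_top hcore

end Pool.Agent.H97.BP.Sob
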