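import Pool.Agent.H97.BP.Cantor
set_option autoImplicit false

/-! A homeomorphism of the line, close to the identity, which increases very slowly at most
places. -/

namespace Pool.Agent.H97.BP

open MeasureTheory Set Metric Filter Topology
open scoped ENNReal NNReal

lemma geo' : HasSum (fun m : ℕ => (1 / 2 : ℝ) ^ (m + 1)) 1 := by
  have h1 := (hasSum_geometric_of_lt_one (r := (1 / 2 : ℝ)) (by norm_num) (by norm_num)).mul_right
    (1 / 2)
  have h2 : (fun m : ℕ => (1 / 2 : ℝ) ^ (m + 1)) = fun m : ℕ => (1 / 2) ^ m * (1 / 2) := by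
    funext m
    rw [pow_succ]
  rw [h2]
  norm_num at h1 ⊢
  exact h1

/-- the weights -/
lemma weights (L : ℕ → ℝ) (hL : ∀ j, 0 ≤ L j) : ∃ w : ℕ → ℝ, (∀ m, 0 < w m) ∧ HasSum w 1 ∧
    ∀ j, 1 ≤ Nat.log 8 (j + 1) → 4 * L j * ∑' m, w (m + Nat.log 8 (j + 1)) ≤ 1 / 16 ^ j := by
  set Λ : ℕ → ℝ := fun m => ∑ j ∈ Finset.range (8 ^ (m + 1)), 4 * L j * 16 ^ j with hΛ
  have hΛ0 : ∀ m, 0 ≤ Λ m := fun m => Finset.sum_nonneg fun j _ => by
    have := hL j
    positivity
  set b : ℕ → ℝ := fun m => if m = 0 then 1 else (1 / 2) ^ (m + 1) / (1 + Λ m) with hb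
  have hb1 : ∀ m, m ≠ 0 → b m = (1 / 2) ^ (m + 1) / (1 + Λ m) := fun m hm => if_neg hm
  have hbpos : ∀ m, 0 < b m := by
    intro m
    by_cases hm : m = 0
    · simp only [hb]; rw [if_pos hm]; exact one_pos
    · rw [hb1 m hm]
      have := hΛ0 m
      positivity
  have hble : ∀ m, m ≠ 0 → b m ≤ (1 / 2) ^ (m + 1) := by
    intro m hm
    rw [hb1 m hm]
    refine div_le_self (by positivity) ?_
    have := hΛ0 m
    linarith
  have hbs : Summable b := by
    refine (summable_nat_add_iff 1).1 ?_
    refine Summable.of_nonneg_of_le (fun m => (hbpos _).le) (fun m => hble (m + 1) (by omega)) ?_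
    exact (summable_nat_add_iff 1).2 geo'.summable
  set B : ℝ := ∑' m, b m with hB
  have hB1 : 1 ≤ B := by
    have h1 := hbs.sum_le_tsum {0} (fun m _ => (hbpos m).le)
    have h2 : b 0 = 1 := if_pos rfl
    rw [Finset.sum_singleton, h2] at h1
    exact h1
  have hB0 : 0 < B := by linarith
  refine ⟨fun m => b m / B, fun m => div_pos (hbpos m) hB0, ?_, fun j hj => ?_⟩
  · have := hbs.hasSum.div_const B
    rwa [← hB, div_self hB0.ne'] at this
  · set k := Nat.log 8 (j + 1) with hk
    have h1 : ∀ m, 4 * L j * (b (m + k) / B) ≤ (1 / 2) ^ (m + 1) * (1 / 16 ^ j) := by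
      intro m
      have hm0 : m + k ≠ 0 := by omega
      have h2 : 4 * L j * 16 ^ j ≤ Λ (m + k) := by
        refine Finset.single_le_sum (f := fun j => 4 * L j * 16 ^ j) (fun i _ => by
          have := hL i
          positivity) (Finset.mem_range.2 ?_)
        have h3 : j + 1 < 8 ^ (k + 1) := Nat.lt_pow_succ_log_self (by norm_num) _
        have h4 : 8 ^ (k + 1) ≤ 8 ^ (m + k + 1) := Nat.pow_le_pow_right (by norm_num) (by omega)
        omega
      have h5 := hL j
      have h6 := hΛ0 (m + k)
      have h7 : b (m + k) / B ≤ b (m + k) := div_le_self (hbpos _).le hB1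
      calc 4 * L j * (b (m + k) / B) ≤ 4 * L j * b (m + k) :=
            mul_le_mul_of_nonneg_left h7 (by positivity)
        _ = (4 * L j / (1 + Λ (m + k))) * (1 / 2) ^ (m + k + 1) := by
            rw [hb1 _ hm0]
            ring
        _ ≤ (1 / 16 ^ j) * (1 / 2) ^ (m + 1) := by
            refine mul_le_mul ?_ ?_ (by positivity) (by positivity)
            · rw [div_le_div_iff₀ (by positivity) (by positivity)]
              linarith
            · exact pow_le_pow_of_le_one (by norm_num) (by norm_num) (by omega)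
        _ = _ := mul_comm _ _
    have hbk : Summable fun m => b (m + k) / B := ((summable_nat_add_iff k).2 hbs).div_const B
    rw [← tsum_mul_left]
    calc ∑' m, 4 * L j * (b (m + k) / B) ≤ ∑' m : ℕ, (1 / 2 : ℝ) ^ (m + 1) * (1 / 16 ^ j) :=
          (hbk.mul_left _).tsum_le_tsum h1 (geo'.summable.mul_right _)
      _ = 1 / 16 ^ j := by
          rw [tsum_mul_right, geo'.tsum_eq, one_mul]

section
variable (w : ℕ → ℝ) (N : ℕ)

/-- the slow function on `[-1, 1]` -/
noncomputable def ta (t : ℝ) : ℝ := -1 + 2 * ∑' m, w m * CM (N * 2 ^ m) t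

variable {w N} (hw : ∀ m, 0 < w m) (hs : HasSum w 1) (hN : 0 < N)
include hw hs

lemma ta_sum (t : ℝ) : Summable fun m => w m * CM (N * 2 ^ m) t :=
  Summable.of_nonneg_of_le (fun m => mul_nonneg (hw m).le (CM_mem _ t).1)
    (fun m => mul_le_of_le_one_right (hw m).le (CM_mem _ t).2) hs.summable

lemma ta_cont : Continuous (ta w N) := by
  unfold ta
  refine continuous_const.add (continuous_const.mul (continuous_tsum
    (fun m => continuous_const.mul (CM_cont _)) hs.summable fun m t => ?_))
  rw [Real.norm_eq_abs, abs_of_nonneg (mul_nonneg (hw m).le (CM_mem _ t).1)]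
  exact mul_le_of_le_one_right (hw m).le (CM_mem _ t).2

lemma ta_mono : Monotone (ta w N) := by
  intro s t hst
  unfold ta
  have := (ta_sum hw hs (N := N) s).tsum_le_tsum (fun m => mul_le_mul_of_nonneg_left
    (CM_mono (N * 2 ^ m) hst) (hw m).le) (ta_sum hw hs t)
  linarith

lemma ta_neg {t : ℝ} (ht : t ≤ -1) : ta w N t = -1 := by
  unfold ta
  have h1 : ∀ m, w m * CM (N * 2 ^ m) t = 0 := fun m => by rw [CM_zero ht, mul_zero]
  simp only [h1, tsum_zero, mul_zero, add_zero]

include hN in
lemma ta_one {t : ℝ} (ht : 1 ≤ t) : ta w N t = 1 := by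
  unfold ta
  have h1 : ∀ m, w m * CM (N * 2 ^ m) t = w m := fun m => by
    rw [CM_one (by positivity) ht, mul_one]
  simp only [h1, hs.tsum_eq]
  norm_num

include hN in
lemma ta_close {t : ℝ} (h1 : -1 ≤ t) (h2 : t ≤ 1) : |ta w N t - t| ≤ 2 / N := by
  have hN' : (0 : ℝ) < N := by exact_mod_cast hN
  have e1 : ta w N t - t = 2 * ∑' m, w m * (CM (N * 2 ^ m) t - (t + 1) / 2) := by
    unfold ta
    have h3 : ∀ m, w m * (CM (N * 2 ^ m) t - (t + 1) / 2) =
        w m * CM (N * 2 ^ m) t - w m * ((t + 1) / 2) := fun m => by ring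
    simp only [h3]
    rw [(ta_sum hw hs t).tsum_sub (hs.summable.mul_right _), tsum_mul_right, hs.tsum_eq]
    ring
  have h4 : ∀ m, ‖w m * (CM (N * 2 ^ m) t - (t + 1) / 2)‖ ≤ w m * (1 / N) := by
    intro m
    rw [norm_mul, Real.norm_eq_abs, Real.norm_eq_abs, abs_of_pos (hw m)]
    refine mul_le_mul_of_nonneg_left ((CM_close (M := N * 2 ^ m) (by positivity) h1 h2).trans ?_)
      (hw m).le
    push_cast
    refine one_div_le_one_div_of_le hN' ?_
    have : (1 : ℝ) ≤ 2 ^ m := one_le_pow₀ (by norm_num)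
    nlinarith
  have h5 := tsum_of_norm_bounded (hs.mul_right (1 / (N : ℝ))) h4
  rw [e1, abs_mul, abs_two, ← Real.norm_eq_abs]
  rw [one_mul] at h5
  calc 2 * ‖∑' m, w m * (CM (N * 2 ^ m) t - (t + 1) / 2)‖ ≤ 2 * (1 / N) := by linarith
    _ = 2 / N := by ring

include hN in
lemma ta_strict {s t : ℝ} (h1 : -1 ≤ s) (h2 : t ≤ 1) (hst : s < t) : ta w N s < ta w N t := by
  have hN' : (1 : ℝ) ≤ N := by exact_mod_cast hN
  obtain ⟨m, hm⟩ := pow_unbounded_of_one_lt (4 / (t - s)) (one_lt_two (α := ℝ))
  have hts : 0 < t - s := by linarith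
  rw [div_lt_iff₀ hts] at hm
  unfold ta
  have h3 : CM (N * 2 ^ m) s < CM (N * 2 ^ m) t := by
    refine CM_strict (by positivity) h1 h2 ?_
    push_cast
    have : (2 : ℝ) ^ m * (t - s) ≤ N * 2 ^ m * (t - s) := by
      have h4 : (0 : ℝ) < 2 ^ m * (t - s) := by positivity
      nlinarith
    linarith
  have h4 := Summable.tsum_lt_tsum (i := m) (fun k => mul_le_mul_of_nonneg_left
    (CM_mono (N * 2 ^ k) hst.le) (hw k).le) (mul_lt_mul_of_pos_left h3 (hw m))
    (ta_sum hw hs (N := N) s) (ta_sum hw hs t)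
  linarith

/-- off the sets of non-constancy the increase is tiny -/
lemma ta_slow {h t : ℝ} (k : ℕ) (h0 : 0 ≤ h) (ht : ∀ m < k, t ∉ NM (N * 2 ^ m) h) :
    ta w N (t + h) - ta w N (t - h) ≤ 2 * ∑' m, w (m + k) := by
  have e1 : ta w N (t + h) - ta w N (t - h) =
      2 * ∑' m, w m * (CM (N * 2 ^ m) (t + h) - CM (N * 2 ^ m) (t - h)) := by
    unfold ta
    have h3 : ∀ m, w m * (CM (N * 2 ^ m) (t + h) - CM (N * 2 ^ m) (t - h)) =
        w m * CM (N * 2 ^ m) (t + h) - w m * CM (N * 2 ^ m) (t - h) := fun m => by ring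
    simp only [h3]
    rw [(ta_sum hw hs (t + h)).tsum_sub (ta_sum hw hs (t - h))]
    ring
  have hsum : Summable fun m => w m * (CM (N * 2 ^ m) (t + h) - CM (N * 2 ^ m) (t - h)) := by
    have h3 : (fun m => w m * (CM (N * 2 ^ m) (t + h) - CM (N * 2 ^ m) (t - h))) =
        fun m => w m * CM (N * 2 ^ m) (t + h) - w m * CM (N * 2 ^ m) (t - h) := by
      funext m
      ring
    rw [h3]
    exact (ta_sum hw hs (t + h)).sub (ta_sum hw hs (t - h))
  rw [e1, ← hsum.sum_add_tsum_nat_add k]
  have h4 : ∑ m ∈ Finset.range k, w m * (CM (N * 2 ^ m) (t + h) - CM (N * 2 ^ m) (t - h)) = 0 := by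
    refine Finset.sum_eq_zero fun m hm => ?_
    have h5 := ht m (Finset.mem_range.1 hm)
    simp only [NM, mem_ofPred_eq, not_not] at h5
    rw [h5, sub_self, mul_zero]
  rw [h4, zero_add]
  refine mul_le_mul_of_nonneg_left ?_ zero_le_two
  refine ((summable_nat_add_iff k).2 hsum).tsum_le_tsum (fun m => ?_)
    ((summable_nat_add_iff k).2 hs.summable)
  refine mul_le_of_le_one_right (hw _).le ?_
  have h5 := (CM_mem (N * 2 ^ (m + k)) (t + h)).2
  have h6 := (CM_mem (N * 2 ^ (m + k)) (t - h)).1
  linarith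

end

/-- **The change of variable.** -/
theorem exists_tau (L : ℕ → ℝ) (hL : ∀ j, 0 ≤ L j) {N : ℕ} (hN : 0 < N) {H : ℝ} (hH : 0 ≤ H)
    {ν : ℕ} (hν : 7 ≤ ν) (hNH : N * H / 2 ≤ 16 ^ ν) : ∃ (φ : ℝ ≃ₜ ℝ) (D : ℕ → ℝ → ℝ),
    StrictMono φ ∧ φ (-1) = -1 ∧ φ 1 = 1 ∧ (∀ t ∈ Icc (-1 : ℝ) 1, |φ t - t| ≤ 2 / N) ∧
    (∀ j, Measurable (D j)) ∧ (∀ j t, 0 ≤ D j t) ∧
    (∀ j, ∀ a ∈ Icc (-1 : ℝ) 1, ∀ b ∈ Icc (-1 : ℝ) 1, |a - b| ≤ H / 16 ^ j →
      min 1 (2 * L j * |φ a - φ b|) ≤ D j a) ∧
    ∀ j : ℕ, ∫⁻ t in Ioo (-1 : ℝ) 1, ENNReal.ofReal (D j t) ≤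
      ENNReal.ofReal (8 * 8 ^ ν * (j + 1) / 8 ^ j) := by
  obtain ⟨w, hw, hs, hwL⟩ := weights L hL
  have hc := ta_cont hw hs (N := N)
  have hmono := ta_mono hw hs (N := N)
  set e : ℝ → ℝ := fun t => ta w N t + min (t + 1) 0 + max (t - 1) 0 with he
  have hec : Continuous e := by
    simp only [he]
    fun_prop
  have hein : ∀ t ∈ Icc (-1 : ℝ) 1, e t = ta w N t := by
    intro t ht
    simp only [he]
    rw [min_eq_right (by linarith [ht.1]), max_eq_right (by linarith [ht.2])]
    ring
  have hep : ∀ t, 1 ≤ t → e t = t := by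
    intro t ht
    simp only [he]
    rw [min_eq_right (by linarith), max_eq_left (by linarith), ta_one hw hs hN ht]
    ring
  have hem : ∀ t, t ≤ -1 → e t = t := by
    intro t ht
    simp only [he]
    rw [min_eq_left (by linarith), max_eq_right (by linarith), ta_neg hw hs ht]
    ring
  have hstrict : StrictMono e := by
    intro s t hst
    have h1 := hmono hst.le
    have h2 : min (s + 1) 0 ≤ min (t + 1) 0 := min_le_min (by linarith) le_rfl
    have h3 : max (s - 1) 0 ≤ max (t - 1) 0 := max_le_max (by linarith) le_rfl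
    simp only [he]
    by_cases ht : t ≤ 1
    · by_cases hs' : -1 ≤ s
      · have := ta_strict hw hs hN hs' ht hst
        linarith
      · push Not at hs'
        have h4 : min (s + 1) 0 = s + 1 := min_eq_left (by linarith)
        have h5 : s + 1 < min (t + 1) 0 := lt_min (by linarith) (by linarith)
        linarith
    · push Not at ht
      have h4 : max (t - 1) 0 = t - 1 := max_eq_left (by linarith)
      have h5 : max (s - 1) 0 < t - 1 := max_lt (by linarith) (by linarith)
      linarith
  have hsurj : Function.Surjective e := by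
    refine hec.surjective ?_ ?_
    · refine tendsto_id.congr' ?_
      filter_upwards [eventually_ge_atTop (1 : ℝ)] with t ht
      exact (hep t ht).symm
    · refine tendsto_id.congr' ?_
      filter_upwards [eventually_le_atBot (-1 : ℝ)] with t ht
      exact (hem t ht).symm
  set o := StrictMono.orderIsoOfSurjective e hstrict hsurj with ho
  have hoe : ∀ t, o.toHomeomorph t = e t := fun t => rfl
  set D : ℕ → ℝ → ℝ := fun j t => min 1 (2 * L j * (ta w N (t + H / 16 ^ j) -
    ta w N (t - H / 16 ^ j))) with hD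
  have hDm : ∀ j, Measurable (D j) := fun j => by
    have : Continuous (D j) := by
      simp only [hD]
      exact continuous_const.min (continuous_const.mul ((hc.comp (by fun_prop)).sub
        (hc.comp (by fun_prop))))
    exact this.measurable
  have hhj : ∀ j : ℕ, 0 ≤ H / 16 ^ j := fun j => by positivity
  have hdiff : ∀ j t, 0 ≤ ta w N (t + H / 16 ^ j) - ta w N (t - H / 16 ^ j) := fun j t => by
    have := hmono (show t - H / 16 ^ j ≤ t + H / 16 ^ j by linarith [hhj j])
    linarith
  have hD0 : ∀ j t, 0 ≤ D j t := fun j t =>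
    le_min zero_le_one (mul_nonneg (mul_nonneg zero_le_two (hL j)) (hdiff j t))
  refine ⟨o.toHomeomorph, D, hstrict, ?_, ?_, fun t ht => ?_, hDm, hD0, fun j a ha b hb hab => ?_,
    fun j => ?_⟩
  · rw [hoe, hem _ le_rfl]
  · rw [hoe, hep _ le_rfl]
  · rw [hoe, hein t ht]
    exact ta_close hw hs hN ht.1 ht.2
  · rw [hoe, hoe, hein a ha, hein b hb]
    refine min_le_min le_rfl (mul_le_mul_of_nonneg_left ?_ (mul_nonneg zero_le_two (hL j)))
    rw [abs_le] at hab ⊢
    have h1 := hmono (show b ≤ a + H / 16 ^ j by linarith)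
    have h2 := hmono (show a - H / 16 ^ j ≤ b by linarith)
    have h3 := hmono (show a ≤ a + H / 16 ^ j by linarith [hhj j])
    have h4 := hmono (show a - H / 16 ^ j ≤ a by linarith [hhj j])
    constructor <;> linarith
  · set k := Nat.log 8 (j + 1) with hk
    have h8k : (8 : ℝ) ^ k ≤ j + 1 := by
      have : 8 ^ k ≤ j + 1 := Nat.pow_log_le_self 8 (by omega)
      exact_mod_cast this
    rcases Nat.eq_zero_or_pos k with hk0 | hk0
    · have hj : j + 1 < 8 := by
        have := Nat.lt_pow_succ_log_self (b := 8) (by norm_num) (j + 1)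
        rw [← hk, hk0] at this
        simpa using this
      calc ∫⁻ t in Ioo (-1 : ℝ) 1, ENNReal.ofReal (D j t)
          ≤ ∫⁻ t in Ioo (-1 : ℝ) 1, 1 := by
            refine lintegral_mono fun t => ?_
            rw [ENNReal.ofReal_le_one]
            exact min_le_left _ _
        _ = ENNReal.ofReal 2 := by
            rw [lintegral_one, Measure.restrict_apply_univ, Real.volume_Ioo]
            norm_num
        _ ≤ _ := by
            refine ENNReal.ofReal_le_ofReal ?_
            rw [le_div_iff₀ (by positivity)]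
            have h1 : (8 : ℝ) ^ j ≤ 8 ^ ν := pow_le_pow_right₀ (by norm_num) (by omega)
            have h2 : (0 : ℝ) ≤ j := Nat.cast_nonneg j
            have h3 : (0 : ℝ) < 8 ^ ν := by positivity
            nlinarith
    · have hwLj := hwL j (by omega)
      have hpt : ∀ t, ENNReal.ofReal (D j t) ≤ (∑ m ∈ Finset.range k,
          (NM (N * 2 ^ m) (H / 16 ^ j)).indicator (fun _ => (1 : ℝ≥0∞)) t) +
          ENNReal.ofReal (1 / 16 ^ j) := by
        intro t
        by_cases hex : ∃ m < k, t ∈ NM (N * 2 ^ m) (H / 16 ^ j)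
        · obtain ⟨m, hm, htm⟩ := hex
          refine le_trans ?_ le_self_add
          calc ENNReal.ofReal (D j t) ≤ 1 := by
                rw [ENNReal.ofReal_le_one]
                exact min_le_left _ _
            _ = (NM (N * 2 ^ m) (H / 16 ^ j)).indicator (fun _ => (1 : ℝ≥0∞)) t := by
                rw [indicator_of_mem htm]
            _ ≤ _ := Finset.single_le_sum (f := fun m =>
                (NM (N * 2 ^ m) (H / 16 ^ j)).indicator (fun _ => (1 : ℝ≥0∞)) t)
                (fun _ _ => bot_le) (Finset.mem_range.2 hm)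
        · push Not at hex
          refine le_trans ?_ le_add_self
          refine ENNReal.ofReal_le_ofReal ((min_le_right _ _).trans ?_)
          have h1 := ta_slow hw hs (N := N) k (hhj j) hex
          refine le_trans ?_ hwLj
          have h2 := hL j
          calc 2 * L j * (ta w N (t + H / 16 ^ j) - ta w N (t - H / 16 ^ j)) ≤
              2 * L j * (2 * ∑' m, w (m + k)) := mul_le_mul_of_nonneg_left h1 (by positivity)
            _ = _ := by ring
      have hNmeas : ∀ m, MeasurableSet (NM (N * 2 ^ m) (H / 16 ^ j)) := fun m => NM_meas _ _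
      calc ∫⁻ t in Ioo (-1 : ℝ) 1, ENNReal.ofReal (D j t)
          ≤ ∫⁻ t in Ioo (-1 : ℝ) 1, ((∑ m ∈ Finset.range k,
          (NM (N * 2 ^ m) (H / 16 ^ j)).indicator (fun _ => (1 : ℝ≥0∞)) t) +
          ENNReal.ofReal (1 / 16 ^ j)) := lintegral_mono hpt
        _ = (∑ m ∈ Finset.range k, volume (NM (N * 2 ^ m) (H / 16 ^ j) ∩ Ioo (-1) 1)) +
            ENNReal.ofReal (1 / 16 ^ j) * ENNReal.ofReal 2 := by
            rw [lintegral_add_right _ measurable_const, lintegral_finsetSum _ (fun m _ =>
              measurable_const.indicator (hNmeas m)), lintegral_const,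
              Measure.restrict_apply_univ, Real.volume_Ioo]
            congr 1
            · refine Finset.sum_congr rfl fun m _ => ?_
              rw [lintegral_indicator_const (hNmeas m), one_mul,
                Measure.restrict_apply (hNmeas m)]
            · norm_num
        _ ≤ (∑ m ∈ Finset.range k, ENNReal.ofReal (6 * 8 ^ (m + ν) / 8 ^ j)) +
            ENNReal.ofReal (1 / 16 ^ j) * ENNReal.ofReal 2 := by
            refine add_le_add (Finset.sum_le_sum fun m _ => ?_) le_rfl
            refine NM_small (by positivity) (hhj j) (m + ν) j ?_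
            push_cast
            rw [mul_div_assoc']
            have h1 : (N : ℝ) * 2 ^ m * H / 16 ^ j / 2 = 2 ^ m * (N * H / 2) / 16 ^ j := by ring
            rw [h1]
            refine div_le_div_of_nonneg_right ?_ (by positivity)
            rw [pow_add]
            refine mul_le_mul ?_ hNH (by positivity) (by positivity)
            exact pow_le_pow_left₀ (by norm_num) (by norm_num) m
        _ = ENNReal.ofReal ((∑ m ∈ Finset.range k, 6 * 8 ^ (m + ν) / 8 ^ j) +
            1 / 16 ^ j * 2) := by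
            rw [ENNReal.ofReal_add (Finset.sum_nonneg fun m _ => by positivity) (by positivity),
              ENNReal.ofReal_sum_of_nonneg (fun m _ => by positivity),
              ENNReal.ofReal_mul (p := 1 / 16 ^ j) (by positivity)]
        _ ≤ _ := by
            refine ENNReal.ofReal_le_ofReal ?_
            have hgeo : ∑ m ∈ Finset.range k, (8 : ℝ) ^ m ≤ 8 ^ k := by
              clear hk0 h8k hwLj hpt hk
              induction k with
              | zero => simp
              | succ k ih =>
                rw [Finset.sum_range_succ, pow_succ]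
                have : (0 : ℝ) < 8 ^ k := by positivity
                linarith
            have h1 : ∑ m ∈ Finset.range k, (6 : ℝ) * 8 ^ (m + ν) / 8 ^ j =
                6 * 8 ^ ν / 8 ^ j * ∑ m ∈ Finset.range k, (8 : ℝ) ^ m := by
              rw [Finset.mul_sum]
              refine Finset.sum_congr rfl fun m _ => ?_
              rw [pow_add]
              ring
            have h2 : (1 : ℝ) / 16 ^ j * 2 ≤ 2 * 8 ^ ν * (j + 1) / 8 ^ j := by
              have h3 : (1 : ℝ) / 16 ^ j ≤ 1 / 8 ^ j :=
                one_div_le_one_div_of_le (by positivity) (pow_le_pow_left₀ (by norm_num)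
                  (by norm_num) j)
              have h4 : (1 : ℝ) ≤ 8 ^ ν := one_le_pow₀ (by norm_num)
              have h5 : (0 : ℝ) ≤ j := Nat.cast_nonneg j
              have h6 : (1 : ℝ) ≤ 8 ^ ν * (j + 1) := by nlinarith
              calc (1 : ℝ) / 16 ^ j * 2 ≤ 1 / 8 ^ j * 2 := by linarith
                _ = 2 * 1 / 8 ^ j := by ring
                _ ≤ 2 * (8 ^ ν * (j + 1)) / 8 ^ j := by
                    refine div_le_div_of_nonneg_right ?_ (by positivity)
                    linarith
                _ = _ := by ring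
            rw [h1]
            calc 6 * 8 ^ ν / 8 ^ j * ∑ m ∈ Finset.range k, (8 : ℝ) ^ m + 1 / 16 ^ j * 2
                ≤ 6 * 8 ^ ν / 8 ^ j * (j + 1) + 2 * 8 ^ ν * (j + 1) / 8 ^ j := by
                  refine add_le_add (mul_le_mul_of_nonneg_left (hgeo.trans h8k)
                    (by positivity)) h2
              _ = _ := by ring

end Pool.Agent.H97.BP
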